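import Pool.Agent.H99C.Turn3

set_option autoImplicit false

/-! Orientation preserving symmetries of the honeycomb lattice. -/

namespace Pool.Agent.H99C

open H978R2.Hex Complex Pool.Agent.H99B

/-- an orientation preserving symmetry of the honeycomb lattice -/
structure Mv where
  f : V → V
  g : V → V
  fg : ∀ v, f (g v) = v
  gf : ∀ v, g (f v) = v
  adj : ∀ p q, Adj (f p) (f q) ↔ Adj p q
  turn : ∀ p q r, turn (f p) (f q) (f r) = turn p q r
  ang : ∀ b p q, ang (f b) (f p) (f q) = ang b p q

namespace Mv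

/-- composition -/
def comp (M N : Mv) : Mv where
  f := fun v => M.f (N.f v)
  g := fun v => N.g (M.g v)
  fg := fun v => by rw [N.fg, M.fg]
  gf := fun v => by rw [M.gf, N.gf]
  adj := fun p q => by rw [M.adj, N.adj]
  turn := fun p q r => by rw [M.turn, N.turn]
  ang := fun b p q => by rw [M.ang, N.ang]

/-- the inverse -/
def symm (M : Mv) : Mv where
  f := M.g
  g := M.f
  fg := M.gf
  gf := M.fg
  adj := fun p q => by rw [← M.adj, M.fg, M.fg]
  turn := fun p q r => by rw [← M.turn, M.fg, M.fg, M.fg]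
  ang := fun b p q => by rw [← M.ang, M.fg, M.fg, M.fg]

/-- the identity -/
def one : Mv where
  f := id
  g := id
  fg := fun _ => rfl
  gf := fun _ => rfl
  adj := fun _ _ => Iff.rfl
  turn := fun _ _ _ => rfl
  ang := fun _ _ _ => rfl

theorem inj (M : Mv) : Function.Injective M.f := fun a b h => by
  rw [← M.gf a, h, M.gf]

theorem ang_of {f : V → V} {α β : ℂ} (hα : α ≠ 0) (h : ∀ v, pos (f v) = α * pos v + β)
    (b p q : V) : H978R2.Hex.ang (f b) (f p) (f q) = H978R2.Hex.ang b p q := by
  unfold H978R2.Hex.ang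
  rw [h, h, h]
  have e1 : α * pos p + β - (α * pos b + β) = α * (pos p - pos b) := by ring
  have e2 : α * pos q + β - (α * pos b + β) = α * (pos q - pos b) := by ring
  rw [e1, e2, mul_div_mul_left _ _ hα]

/-- even translations -/
def tr (a b : ℤ) (h : (a + b) % 2 = 0) : Mv where
  f := fun v => (v.1 + a, v.2 + b)
  g := fun v => (v.1 - a, v.2 - b)
  fg := fun v => Prod.ext (by simp) (by simp)
  gf := fun v => Prod.ext (by simp) (by simp)
  adj := fun p q => by
    rw [adj_iff, adj_iff]
    simp only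
    omega
  turn := fun p q r => by
    have e : ∀ v : V, ht (v.1 + a, v.2 + b) = ht v + 3 * b := by
      intro v
      unfold ht
      simp only
      omega
    unfold H978R2.Hex.turn
    rw [e, e, e]
    congr 1
    simp only
    ring
  ang := by
    refine ang_of (α := 1) (β := ⟨Real.sqrt 3 / 2 * a, (3 * b : ℝ) / 2⟩) one_ne_zero ?_
    intro v
    have e : ht (v.1 + a, v.2 + b) = ht v + 3 * b := by
      unfold ht
      simp only
      omega
    unfold pos
    rw [e]
    apply Complex.ext
    · simp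
      ring
    · simp
      ring

/-- the half turn around the middle of the edge from `(0,0)` to `(1,0)` -/
def half : Mv where
  f := fun v => (1 - v.1, -v.2)
  g := fun v => (1 - v.1, -v.2)
  fg := fun v => Prod.ext (by simp) (by simp)
  gf := fun v => Prod.ext (by simp) (by simp)
  adj := fun p q => by
    rw [adj_iff, adj_iff]
    simp only
    omega
  turn := fun p q r => by
    have e : ∀ v : V, ht (1 - v.1, -v.2) = -ht v - 1 := by
      intro v
      unfold ht
      simp only
      omega
    unfold H978R2.Hex.turn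
    rw [e, e, e]
    congr 1
    simp only
    ring
  ang := by
    refine ang_of (α := -1) (β := ⟨Real.sqrt 3 / 2, -1 / 2⟩) (by norm_num) ?_
    intro v
    have e : ht (1 - v.1, -v.2) = -ht v - 1 := by
      unfold ht
      simp only
      omega
    unfold pos
    rw [e]
    apply Complex.ext
    · simp
      ring
    · simp
      ring

/-- the rotation by 120 degrees -/
def rof (v : V) : V := (-((v.1 + v.2) / 2) - v.2, (v.1 - v.2 + 1) / 2)

theorem rof1 (v : V) : 2 * (rof v).1 = -v.1 - ht v := by
  unfold rof ht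
  simp only
  omega

theorem rof2 (v : V) : 2 * ht (rof v) = 3 * v.1 - ht v := by
  unfold rof ht
  simp only
  omega

theorem rof3 (v : V) : rof (rof (rof v)) = v := by
  unfold rof
  refine Prod.ext ?_ ?_
  · simp only
    omega
  · simp only
    omega

theorem cross_aux {a b c d a' b' c' d' : ℤ} (h1 : 2 * a' = -a - b) (h2 : 2 * b' = 3 * a - b)
    (h3 : 2 * c' = -c - d) (h4 : 2 * d' = 3 * c - d) : a' * d' - b' * c' = a * d - b * c := by
  have e : (4 : ℤ) * (a' * d' - b' * c') = 4 * (a * d - b * c) := by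
    have : (4 : ℤ) * (a' * d' - b' * c') = (2 * a') * (2 * d') - (2 * b') * (2 * c') := by ring
    rw [this, h1, h2, h3, h4]
    ring
  exact mul_left_cancel₀ (by norm_num) e

theorem cross_rof (p q r : V) :
    ((rof q).1 - (rof p).1) * (ht (rof r) - ht (rof q)) -
      (ht (rof q) - ht (rof p)) * ((rof r).1 - (rof q).1) =
      (q.1 - p.1) * (ht r - ht q) - (ht q - ht p) * (r.1 - q.1) := by
  have a1 := rof1 p
  have a2 := rof1 q
  have a3 := rof1 r
  have b1 := rof2 p
  have b2 := rof2 q
  have b3 := rof2 r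
  exact cross_aux (by linarith) (by linarith) (by linarith) (by linarith)

theorem rof_adj' (p q : V) (h : Adj p q) : Adj (rof p) (rof q) := by
  rw [adj_iff] at h ⊢
  unfold rof
  simp only
  omega

theorem rof_adj (p q : V) : Adj (rof p) (rof q) ↔ Adj p q := by
  refine ⟨fun h => ?_, rof_adj' p q⟩
  have h1 := rof_adj' _ _ (rof_adj' _ _ h)
  rwa [rof3, rof3] at h1

theorem rof_pos (v : V) : pos (rof v) = ⟨-1 / 2, Real.sqrt 3 / 2⟩ * pos v + 0 := by
  have a1 : (2 : ℝ) * ((rof v).1 : ℝ) = -(v.1 : ℝ) - (ht v : ℝ) := by exact_mod_cast rof1 v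
  have b1 : (2 : ℝ) * (ht (rof v) : ℝ) = 3 * (v.1 : ℝ) - (ht v : ℝ) := by
    exact_mod_cast rof2 v
  have h3 : Real.sqrt 3 * Real.sqrt 3 = 3 := Real.mul_self_sqrt (by norm_num)
  unfold pos
  apply Complex.ext
  · simp
    linear_combination (Real.sqrt 3 / 4) * a1
  · simp
    linear_combination (1 / 4 : ℝ) * b1 - ((v.1 : ℝ) / 4) * h3

/-- the rotation by 120 degrees -/
def rot : Mv where
  f := rof
  g := fun v => rof (rof v)
  fg := rof3
  gf := rof3
  adj := rof_adj
  turn := fun p q r => by
    unfold H978R2.Hex.turn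
    congr 1
    exact cross_rof p q r
  ang := by
    refine ang_of (α := ⟨-1 / 2, Real.sqrt 3 / 2⟩) (β := 0) ?_ rof_pos
    intro h
    have := congrArg Complex.re h
    norm_num at this

/-- every directed edge can be moved to the edge from the origin to `(1,0)` -/
theorem exists_mv {b a : V} (h : Adj b a) : ∃ M : Mv, M.f b = (0, 0) ∧ M.f a = (1, 0) := by
  -- even case
  have even : ∀ b a : V, Adj b a → (b.1 + b.2) % 2 = 0 → ∃ M : Mv, M.f b = (0, 0) ∧
      M.f a = (1, 0) := by
    intro b a h hb
    rw [adj_iff] at h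
    have hcase : (a.1 = b.1 + 1 ∧ a.2 = b.2) ∨ (a.1 = b.1 - 1 ∧ a.2 = b.2) ∨
        (a.1 = b.1 ∧ a.2 = b.2 + 1) := by omega
    rcases hcase with ⟨h1, h2⟩ | ⟨h1, h2⟩ | ⟨h1, h2⟩
    · refine ⟨tr (-b.1) (-b.2) (by omega), ?_, ?_⟩
      · simp [tr]
      · simp [tr, h1, h2]
    · refine ⟨rot.comp (tr (-b.1) (-b.2) (by omega)), ?_, ?_⟩
      · simp [tr, comp, rot, rof]
      · simp [tr, comp, rot, rof, h1, h2]
        omega
    · refine ⟨rot.comp (rot.comp (tr (-b.1) (-b.2) (by omega))), ?_, ?_⟩
      · simp [tr, comp, rot, rof]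
      · simp [tr, comp, rot, rof, h1, h2]
  by_cases hb : (b.1 + b.2) % 2 = 0
  · exact even b a h hb
  · obtain ⟨M, h1, h2⟩ := even (half.f b) (half.f a) ((half.adj b a).2 h) (by
      show (1 - b.1 + -b.2) % 2 = 0
      omega)
    exact ⟨M.comp half, h1, h2⟩

theorem W_map (M : Mv) : ∀ l : List V, W (l.map M.f) = W l
  | [] => rfl
  | [_] => rfl
  | [_, _] => rfl
  | z :: y :: x :: t => by
    have ih := W_map M (y :: x :: t)
    have e1 : W (z :: y :: x :: t) = H978R2.Hex.turn x y z + W (y :: x :: t) := rfl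
    have e2 : W ((z :: y :: x :: t).map M.f) =
        H978R2.Hex.turn (M.f x) (M.f y) (M.f z) + W ((y :: x :: t).map M.f) := rfl
    rw [e1, e2, ih, M.turn]

theorem wind_map (M : Mv) (b : V) : ∀ l : List V, wind (M.f b) (l.map M.f) = wind b l
  | [] => rfl
  | [_] => rfl
  | p :: q :: t => by
    have ih := wind_map M b (q :: t)
    have e1 : wind b (p :: q :: t) = H978R2.Hex.ang b p q + wind b (q :: t) := rfl
    have e2 : wind (M.f b) ((p :: q :: t).map M.f) =
        H978R2.Hex.ang (M.f b) (M.f p) (M.f q) + wind (M.f b) ((q :: t).map M.f) := rfl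
    rw [e1, e2, ih, M.ang]

theorem cw_map (M : Mv) (b : V) (l : List V) : cw (M.f b) (l.map M.f) = cw b l := by
  match l with
  | [] => rfl
  | a :: t =>
    have e1 : cw b (a :: t) = wind b (a :: (t ++ [a])) := rfl
    have e2 : cw (M.f b) ((a :: t).map M.f) = wind (M.f b) ((a :: (t ++ [a])).map M.f) := by
      rw [List.map_cons, List.map_cons, List.map_append]
      rfl
    rw [e1, e2, wind_map]

theorem circ_map (M : Mv) {v : V} {l : List V} (h : Circ v l) : Circ (M.f v) (l.map M.f) := by
  refine ⟨by simpa using h.len, ?_, ?_⟩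
  · rw [← List.map_cons]
    exact h.nodup.map M.inj
  · have e : M.f v :: (l.map M.f ++ [M.f v]) = (v :: (l ++ [v])).map M.f := by simp
    rw [e, List.isChain_map]
    exact h.chain.imp (fun a b hab => (M.adj a b).2 hab)

end Mv

end Pool.Agent.H99C
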