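import Pool.Agent.H99C.IdentW
import Pool.Agent.H99C.Mv

set_option autoImplicit false

/-! The real form of the identity, and the walks which are stopped outside the domain. -/

namespace Pool.Agent.H99C

open H978R2.Hex Complex Pool.Agent.H99B

/-- landing walks -/
def AA (D : Finset V) : Finset (List V) := (Finset.range (D.card + 2)).biUnion (Ld D)

theorem mem_AA {D : Finset V} {l : List V} :
    l ∈ AA D ↔ ∃ z t, l = z :: t ∧ Good (· ∈ D) z t ∧ z ∉ D := by
  unfold AA Ld
  rw [Finset.mem_biUnion]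
  constructor
  · rintro ⟨m, -, hl⟩
    rw [Finset.mem_filter] at hl
    obtain ⟨z, t, rfl, hg, -⟩ := good_of_mem hl.1
    exact ⟨z, t, rfl, hg, by simpa using hl.2⟩
  · rintro ⟨z, t, rfl, hg, hz⟩
    have hlen : t.length = (t.length - 1) + 1 := by
      have := hg.suff.length_le
      simp only [List.length_cons, List.length_nil] at this
      omega
    have hm := hg.mem_P hlen
    refine ⟨t.length - 1, ?_, ?_⟩
    · have := le_card hm
      rw [Finset.mem_range]
      omega
    · rw [Finset.mem_filter]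
      exact ⟨hm, by simpa using hz⟩

/-- the weight of a walk -/
noncomputable def Fc (c x : ℝ) (l : List V) : ℝ := x ^ (l.length - 2) * Real.cos (W l * c)

theorem sum_AA_aux (D : Finset V) (x : ℂ) (f : List V → ℂ) :
    ∑ l ∈ AA D, x ^ (l.length - 2) * f l =
      ∑ m ∈ Finset.range (D.card + 2), x ^ m * ∑ l ∈ Ld D m, f l := by
  unfold AA
  rw [Finset.sum_biUnion]
  · refine Finset.sum_congr rfl fun m _ => ?_
    rw [Finset.mul_sum]
    refine Finset.sum_congr rfl fun l hl => ?_
    rw [len_P (Finset.mem_filter.1 hl).1]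
    simp
  · intro a _ b _ hab
    simp only [Function.onFun]
    rw [Finset.disjoint_left]
    intro l h1 h2
    have e1 := len_P (Finset.mem_filter.1 h1).1
    have e2 := len_P (Finset.mem_filter.1 h2).1
    omega

theorem ph_re (c : ℝ) (l : List V) : (ph c l).re = Real.cos (W l * c) := by
  unfold ph
  have e : ((W l : ℂ) * c * I) = (((W l : ℝ) * c : ℝ) : ℂ) * I := by push_cast; ring
  rw [e, Complex.exp_ofReal_mul_I_re]

/-- **the identity**, real form -/
theorem sum_AA (c x : ℝ) (hx : x * (2 * Real.cos c) = 1) {D : Finset V} (hO : (0, 0) ∉ D) :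
    ∑ l ∈ AA D, Fc c x l * LamW (lw c) x (rest D l.tail) = LamW (lw c) x D := by
  have h := ident_W c x hx hO
  rw [← sum_AA_aux D (x : ℂ) (fun l => ph c l * LamW (lw c) x (rest D l.tail))] at h
  have h2 := congrArg Complex.re h
  rw [Complex.re_sum, Complex.ofReal_re] at h2
  rw [← h2]
  refine Finset.sum_congr rfl fun l _ => ?_
  have e : (x : ℂ) ^ (l.length - 2) * (ph c l * (LamW (lw c) x (rest D l.tail) : ℂ)) =
      ((x ^ (l.length - 2) * LamW (lw c) x (rest D l.tail) : ℝ) : ℂ) * ph c l := by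
    push_cast
    ring
  rw [e, Complex.re_ofReal_mul, ph_re]
  unfold Fc
  ring

/-! ### closings -/

theorem closing_W {D : Finset V} {t : List V} (h : Good (· ∈ D) (0, 0) t) :
    W ((0, 0) :: t) = 5 ∨ W ((0, 0) :: t) = 7 ∨ W ((0, 0) :: t) = -5 ∨ W ((0, 0) :: t) = -7 := by
  obtain ⟨s, hs⟩ := h.suff
  match s, hs with
  | [], hs => simp at hs
  | [_], hs =>
    simp only [List.cons_append, List.nil_append, List.cons.injEq] at hs
    obtain ⟨-, rfl⟩ := hs
    exact absurd rfl (h.nb (1, 0) (0, 0) [] rfl)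
  | u :: y :: t', hs =>
    simp only [List.cons_append, List.cons.injEq] at hs
    obtain ⟨rfl, rfl⟩ := hs
    have hn := h.nodup
    have hc := h.chain
    have e1 : y :: (t' ++ [(1, 0), (0, 0)]) = (y :: (t' ++ [(1, 0)])) ++ [(0, 0)] := by simp
    refine W_close (c := (0, 0)) (y := y) (p := (1, 0)) (t := t') ⟨by simp, ?_, ?_⟩
    · rw [e1] at hn
      have := List.perm_append_comm.nodup_iff.1 hn
      simpa using this
    · have e2 : (0, 0) :: (y :: (t' ++ [((1, 0) : V)]) ++ [(0, 0)]) =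
          (0, 0) :: y :: (t' ++ [(1, 0), (0, 0)]) := by simp
      rw [e2]
      exact hc.imp (fun a b hab => adj_symm' hab)

/-! ### the value `c = π/8` -/

theorem lw8_nonneg (C : Finset (Sym2 V)) : 0 ≤ lw (Real.pi / 8) C := by
  unfold lw
  split_ifs
  · have : 8 * (Real.pi / 8) = Real.pi := by ring
    rw [this, Real.cos_pi]
    norm_num
  · have : 4 * (Real.pi / 8) = Real.pi / 2 := by ring
    rw [this, Real.cos_pi_div_two]
    norm_num

theorem lw8_zero {C : Finset (Sym2 V)} (h : ¬ Sur C) : lw (Real.pi / 8) C = 0 := by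
  unfold lw
  rw [if_neg h]
  have : 4 * (Real.pi / 8) = Real.pi / 2 := by ring
  rw [this, Real.cos_pi_div_two]
  norm_num

theorem cos5 : Real.cos (5 * (Real.pi / 8)) ≤ 0 := by
  refine Real.cos_nonpos_of_pi_div_two_le_of_le ?_ ?_ <;> linarith [Real.pi_pos]

theorem cos7 : Real.cos (7 * (Real.pi / 8)) ≤ 0 := by
  refine Real.cos_nonpos_of_pi_div_two_le_of_le ?_ ?_ <;> linarith [Real.pi_pos]

/-- the closings have nonpositive weight -/
theorem closing_nonpos {x : ℝ} (hx : 0 ≤ x) {D : Finset V} {t : List V}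
    (h : Good (· ∈ D) (0, 0) t) : Fc (Real.pi / 8) x ((0, 0) :: t) ≤ 0 := by
  unfold Fc
  refine mul_nonpos_of_nonneg_of_nonpos (pow_nonneg hx _) ?_
  rcases closing_W h with h | h | h | h <;> rw [h]
  · push_cast
    exact cos5
  · push_cast
    exact cos7
  · push_cast
    rw [neg_mul, Real.cos_neg]
    exact cos5
  · push_cast
    rw [neg_mul, Real.cos_neg]
    exact cos7

/-- no loop of `D` winds around an outer vertex -/
def NoHole (D : Finset V) : Prop :=
  ∀ v l, Circ v l → (∀ y ∈ v :: l, y ∈ D) → ∀ z, z ∉ D → cw z (v :: l) = 0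

theorem verts_of_loopsIn {D : Finset V} {v : V} {l : List V}
    (h : edges (v :: (l ++ [v])) ∈ loopsIn D) : ∀ y ∈ v :: l, y ∈ D := by
  intro y hy
  have hy' : y ∈ v :: (l ++ [v]) := by
    simp only [List.mem_cons, List.mem_append, List.not_mem_nil, or_false] at hy ⊢
    tauto
  obtain ⟨e, he, hv⟩ := exists_edge (L := v :: (l ++ [v])) (by simp) hy'
  exact (mem_loopsIn.1 h).1 e he y hv

theorem not_sur_of_noHole {D : Finset V} (hN : NoHole D) (hO : (0, 0) ∉ D)
    {C : Finset (Sym2 V)} (hC : C ∈ loopsIn D) : ¬ Sur C := by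
  rintro ⟨v, l, h, rfl, h0⟩
  exact h0 (hN v l h (verts_of_loopsIn hC) _ hO)

theorem NoHole.mono_sum {x : ℝ} {D E : Finset V} (hN : NoHole D) (hO : (0, 0) ∉ D)
    (hE : E ⊆ D) : LamW (lw (Real.pi / 8)) x E = 1 := by
  refine LamW_eq_one fun C hC => lw8_zero (not_sur_of_noHole hN hO ?_)
  obtain ⟨h1, h2⟩ := mem_loopsIn.1 hC
  exact mem_loopsIn.2 ⟨fun e he v hv => hE (h1 e he v hv), h2⟩

theorem rest_sub {D : Finset V} {t : List V} : rest D t ⊆ D := by
  intro v hv
  exact (mem_rest.1 hv).1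

/-- the identity for a domain without holes -/
theorem sum_AA_one {x : ℝ} (hx : x * (2 * Real.cos (Real.pi / 8)) = 1) {D E : Finset V}
    (hN : NoHole D) (hO : (0, 0) ∉ D) (hE : E ⊆ D) :
    ∑ l ∈ AA E, Fc (Real.pi / 8) x l = 1 := by
  have h := sum_AA (Real.pi / 8) x hx (D := E) (fun h => hO (hE h))
  rw [hN.mono_sum hO hE] at h
  rw [← h]
  refine Finset.sum_congr rfl fun l _ => ?_
  rw [hN.mono_sum hO (rest_sub.trans hE), mul_one]

end Pool.Agent.H99C
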