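import Pool.Agent.H99C.PE

set_option autoImplicit false

/-! The walks which cross the domain through a given vertex have total weight at least three. -/

namespace Pool.Agent.H99C

open H978R2.Hex Complex Pool.Agent.H99B

/-- a self-avoiding walk from `b` to `z` with inner vertices `w` in `D` and `z` outside `D` -/
structure Cor (D : Finset V) (z : V) (w : List V) (b : V) : Prop where
  chain : (z :: (w ++ [b])).IsChain Adj
  nodup : (z :: (w ++ [b])).Nodup
  om : ∀ u ∈ w, u ∈ D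
  out : z ∉ D

theorem Cor.last {D : Finset V} {z b : V} {w : List V} (h : Cor D z w b) :
    ∃ a, [a, b] <:+ z :: (w ++ [b]) ∧ Adj b a ∧ (a ∈ w ∨ (w = [] ∧ a = z)) := by
  rcases List.eq_nil_or_concat w with h1 | ⟨s, a, h1⟩
  · subst h1
    refine ⟨z, by simp, ?_, Or.inr ⟨rfl, rfl⟩⟩
    have := h.chain
    rw [List.nil_append, List.isChain_cons_cons] at this
    exact adj_symm' this.1
  · rw [List.concat_eq_append] at h1
    subst h1
    have e : z :: ((s ++ [a]) ++ [b]) = (z :: s) ++ [a, b] := by simp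
    refine ⟨a, ?_, ?_, Or.inl (by simp)⟩
    · rw [e]
      exact List.suffix_append _ _
    · have := h.chain
      rw [e] at this
      have := this.right_of_append
      rw [List.isChain_cons_cons] at this
      exact adj_symm' this.1

theorem mem_PE' {D : Finset V} {b a : V} {l : List V} :
    l ∈ PE D b a ↔ ∃ z w, l = z :: (w ++ [b]) ∧ Cor D z w b ∧ [a, b] <:+ l := by
  rw [mem_PE]
  constructor
  · rintro ⟨z, t, rfl, h⟩
    obtain ⟨w, hw⟩ : ∃ w, t = w ++ [b] := by
      obtain ⟨s, hs⟩ := h.suff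
      match s, hs with
      | [], hs =>
        simp only [List.nil_append, List.cons.injEq] at hs
        exact ⟨[], by rw [← hs.2]; rfl⟩
      | u :: s, hs =>
        simp only [List.cons_append, List.cons.injEq] at hs
        exact ⟨s ++ [a], by rw [← hs.2]; simp⟩
    subst hw
    refine ⟨z, w, rfl, ⟨h.chain.imp (fun a b hab => adj_symm' hab), h.nodup, ?_, h.out⟩, h.suff⟩
    intro u hu
    apply h.om
    rw [List.dropLast_concat]
    exact hu
  · rintro ⟨z, w, rfl, h, hs⟩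
    refine ⟨z, w ++ [b], rfl, hs, h.chain.imp (fun a b hab => adj_symm' hab), h.nodup, ?_, h.out⟩
    intro u hu
    rw [List.dropLast_concat] at hu
    exact h.om u hu

/-- the boundary edges, directed into the domain -/
def bd (D : Finset V) : Finset (V × V) :=
  D.biUnion (fun a => ((nbrs a).filter (fun b => b ∉ D)).image (fun b => (b, a)))

theorem mem_bd {D : Finset V} {p : V × V} : p ∈ bd D ↔ p.2 ∈ D ∧ p.1 ∉ D ∧ Adj p.1 p.2 := by
  unfold bd
  rw [Finset.mem_biUnion]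
  constructor
  · rintro ⟨a, ha, hp⟩
    rw [Finset.mem_image] at hp
    obtain ⟨b, hb, rfl⟩ := hp
    rw [Finset.mem_filter, mem_nbrs'] at hb
    exact ⟨ha, hb.2, adj_symm' hb.1⟩
  · rintro ⟨h1, h2, h3⟩
    refine ⟨p.2, h1, ?_⟩
    rw [Finset.mem_image]
    exact ⟨p.1, Finset.mem_filter.2 ⟨mem_nbrs'.2 (adj_symm' h3), h2⟩, rfl⟩

theorem suff_unique {l : List V} {a b a' b' : V} (h : [a, b] <:+ l) (h' : [a', b'] <:+ l) :
    a = a' ∧ b = b' := by
  have h1 := List.suffix_of_suffix_length_le h h' (by simp)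
  have h2 := h1.eq_of_length (by simp)
  simpa using h2

/-- the walks which cross the domain through `v` -/
noncomputable def SS (D : Finset V) (v : V) : Finset (List V) :=
  (bd D).biUnion (fun p => (PE D p.1 p.2).filter (fun l => v ∈ l))

theorem mem_SS {D : Finset V} {v : V} (hv : v ∈ D) {l : List V} :
    l ∈ SS D v ↔ ∃ z w b, l = z :: (w ++ [b]) ∧ Cor D z w b ∧ b ∉ D ∧ v ∈ w := by
  unfold SS
  rw [Finset.mem_biUnion]
  constructor
  · rintro ⟨p, hp, hl⟩
    rw [Finset.mem_filter, mem_PE'] at hl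
    obtain ⟨⟨z, w, rfl, h, -⟩, hvl⟩ := hl
    have hp' := mem_bd.1 hp
    refine ⟨z, w, p.1, rfl, h, hp'.2.1, ?_⟩
    simp only [List.mem_cons, List.mem_append, List.not_mem_nil, or_false] at hvl
    rcases hvl with rfl | hvl | rfl
    · exact absurd hv h.out
    · exact hvl
    · exact absurd hv hp'.2.1
  · rintro ⟨z, w, b, rfl, h, hb, hvw⟩
    obtain ⟨a, h1, h2, h3⟩ := h.last
    have haw : a ∈ w := by
      rcases h3 with h3 | ⟨h3, -⟩
      · exact h3
      · rw [h3] at hvw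
        simp at hvw
    refine ⟨(b, a), mem_bd.2 ⟨h.om a haw, hb, h2⟩, ?_⟩
    rw [Finset.mem_filter, mem_PE']
    exact ⟨⟨z, w, rfl, h, h1⟩, by simp [hvw]⟩

theorem sum_SS (D : Finset V) (v : V) (F : List V → ℝ) :
    ∑ l ∈ SS D v, F l = ∑ p ∈ bd D, ∑ l ∈ (PE D p.1 p.2).filter (fun l => v ∈ l), F l := by
  unfold SS
  rw [Finset.sum_biUnion]
  intro p _ q _ hpq
  simp only [Function.onFun]
  rw [Finset.disjoint_left]
  intro l h1 h2
  rw [Finset.mem_filter, mem_PE'] at h1 h2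
  obtain ⟨⟨_, _, _, _, h1⟩, -⟩ := h1
  obtain ⟨⟨_, _, _, _, h2⟩, -⟩ := h2
  obtain ⟨h3, h4⟩ := suff_unique h1 h2
  exact hpq (Prod.ext h4 h3)

/-- the walks from a boundary vertex to `v` -/
noncomputable def RR (D : Finset V) (v : V) : Finset (List V) :=
  (bd D).biUnion (fun p => (PE (D.erase v) p.1 p.2).filter (fun l => l.headD (0, 0) = v))

theorem mem_RR {D : Finset V} {v : V} (hv : v ∈ D) {l : List V} :
    l ∈ RR D v ↔ ∃ w b, l = v :: (w ++ [b]) ∧ Cor (D.erase v) v w b ∧ b ∉ D := by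
  unfold RR
  rw [Finset.mem_biUnion]
  constructor
  · rintro ⟨p, hp, hl⟩
    rw [Finset.mem_filter, mem_PE'] at hl
    obtain ⟨⟨z, w, rfl, h, -⟩, hvl⟩ := hl
    simp only [List.headD_cons] at hvl
    subst hvl
    exact ⟨w, p.1, rfl, h, (mem_bd.1 hp).2.1⟩
  · rintro ⟨w, b, rfl, h, hb⟩
    obtain ⟨a, h1, h2, h3⟩ := h.last
    have haD : a ∈ D := by
      rcases h3 with h3 | ⟨-, h3⟩
      · exact Finset.mem_of_mem_erase (h.om a h3)
      · rw [h3]
        exact hv
    refine ⟨(b, a), mem_bd.2 ⟨haD, hb, h2⟩, ?_⟩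
    rw [Finset.mem_filter, mem_PE']
    exact ⟨⟨v, w, rfl, h, h1⟩, rfl⟩

theorem sum_RR (D : Finset V) (v : V) (F : List V → ℝ) :
    ∑ l ∈ RR D v, F l =
      ∑ p ∈ bd D, ∑ l ∈ (PE (D.erase v) p.1 p.2).filter (fun l => l.headD (0, 0) = v), F l := by
  unfold RR
  rw [Finset.sum_biUnion]
  intro p _ q _ hpq
  simp only [Function.onFun]
  rw [Finset.disjoint_left]
  intro l h1 h2
  rw [Finset.mem_filter, mem_PE'] at h1 h2
  obtain ⟨⟨_, _, _, _, h1⟩, -⟩ := h1
  obtain ⟨⟨_, _, _, _, h2⟩, -⟩ := h2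
  obtain ⟨h3, h4⟩ := suff_unique h1 h2
  exact hpq (Prod.ext h4 h3)

/-- the walks from `v` to the outside -/
noncomputable def QQ (D : Finset V) (v : V) : Finset (List V) :=
  (nbrs v).biUnion (fun a => PE (D.erase v) v a)

theorem mem_QQ {D : Finset V} {v : V} {l : List V} :
    l ∈ QQ D v ↔ ∃ z w, l = z :: (w ++ [v]) ∧ Cor (D.erase v) z w v := by
  unfold QQ
  rw [Finset.mem_biUnion]
  constructor
  · rintro ⟨a, -, hl⟩
    rw [mem_PE'] at hl
    obtain ⟨z, w, rfl, h, -⟩ := hl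
    exact ⟨z, w, rfl, h⟩
  · rintro ⟨z, w, rfl, h⟩
    obtain ⟨a, h1, h2, h3⟩ := h.last
    exact ⟨a, mem_nbrs'.2 h2, mem_PE'.2 ⟨z, w, rfl, h, h1⟩⟩

theorem sum_QQ (D : Finset V) (v : V) (F : List V → ℝ) :
    ∑ l ∈ QQ D v, F l = ∑ a ∈ nbrs v, ∑ l ∈ PE (D.erase v) v a, F l := by
  unfold QQ
  rw [Finset.sum_biUnion]
  intro p _ q _ hpq
  simp only [Function.onFun]
  rw [Finset.disjoint_left]
  intro l h1 h2
  rw [mem_PE'] at h1 h2
  obtain ⟨_, _, _, _, h1⟩ := h1
  obtain ⟨_, _, _, _, h2⟩ := h2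
  exact hpq (suff_unique h1 h2).1

theorem rev_mem {D : Finset V} {z b : V} {w : List V} (h : Cor D z w b)
    (hb : b ∉ D) : Cor D b w.reverse z := by
  have e : b :: (w.reverse ++ [z]) = (z :: (w ++ [b])).reverse := by simp
  refine ⟨?_, ?_, fun u hu => h.om u (by simpa using hu), hb⟩
  · rw [e, List.isChain_reverse]
    exact h.chain.imp (fun a b hab => adj_symm' hab)
  · rw [e]
    exact List.nodup_reverse.2 h.nodup

/-- turning of the reversed walk -/
theorem W_reverse : ∀ (l : List V), l.IsChain Adj → l.Nodup → W l.reverse = - W l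
  | [], _, _ => by simp [W]
  | [_], _, _ => by simp [W]
  | [_, _], _, _ => by simp [W]
  | z :: y :: x :: t, hc, hn => by
    have hc1 := List.isChain_cons_cons.1 hc
    have hc2 := List.isChain_cons_cons.1 hc1.2
    have ih := W_reverse (y :: x :: t) hc1.2 (List.nodup_cons.1 hn).2
    have e1 : (z :: y :: x :: t).reverse = t.reverse ++ [x, y, z] := by simp
    have e2 : (y :: x :: t).reverse = t.reverse ++ [x, y] := by simp
    have e3 : W (z :: y :: x :: t) = turn x y z + W (y :: x :: t) := rfl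
    have hxz : z ≠ x := by
      rintro rfl
      exact (List.nodup_cons.1 hn).1 (by simp)
    rw [e1, W_snoc, ← e2, ih, e3, turn_rev hc1.1 hc2.1 hxz]
    have := turn_rev hc1.1 hc2.1 hxz
    ring

theorem Fc_reverse (c x : ℝ) {l : List V} (hc : l.IsChain Adj) (hn : l.Nodup) :
    Fc c x l.reverse = Fc c x l := by
  unfold Fc
  rw [List.length_reverse, W_reverse l hc hn]
  push_cast
  rw [neg_mul, Real.cos_neg]

theorem sum_rev (c x : ℝ) {D : Finset V} {v : V} (hv : v ∈ D) :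
    ∑ l ∈ RR D v, Fc c x l = ∑ l ∈ QQ D v, Fc c x l := by
  refine Finset.sum_nbij' List.reverse List.reverse ?_ ?_ ?_ ?_ ?_
  · intro l hl
    rw [mem_RR hv] at hl
    obtain ⟨w, b, rfl, h, hb⟩ := hl
    rw [mem_QQ]
    refine ⟨b, w.reverse, by simp, rev_mem h (fun hb' => hb (Finset.mem_of_mem_erase hb'))⟩
  · intro l hl
    rw [mem_QQ] at hl
    obtain ⟨z, w, rfl, h⟩ := hl
    rw [mem_RR hv]
    refine ⟨w.reverse, z, by simp, rev_mem h (Finset.notMem_erase v D), ?_⟩
    intro hz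
    apply h.out
    rw [Finset.mem_erase]
    refine ⟨?_, hz⟩
    rintro rfl
    have := (List.nodup_cons.1 h.nodup).1
    simp at this
  · intro l _
    exact List.reverse_reverse l
  · intro l _
    exact List.reverse_reverse l
  · intro l hl
    rw [mem_RR hv] at hl
    obtain ⟨w, b, rfl, h, hb⟩ := hl
    exact (Fc_reverse c x h.chain h.nodup).symm

/-- **Theorem**: the walks which cross `D` through `v` -/
theorem three_le {x : ℝ} (hx0 : 0 ≤ x) (hx : x * (2 * Real.cos (Real.pi / 8)) = 1)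
    {D : Finset V} (hN : NoHole D) {v : V} (hv : v ∈ D) :
    3 ≤ ∑ l ∈ SS D v, Fc (Real.pi / 8) x l := by
  have h1 : ∑ l ∈ RR D v, Fc (Real.pi / 8) x l ≤ ∑ l ∈ SS D v, Fc (Real.pi / 8) x l := by
    rw [sum_SS, sum_RR]
    refine Finset.sum_le_sum fun p hp => ?_
    obtain ⟨-, h2, h3⟩ := mem_bd.1 hp
    exact T1 hx0 hx hN h3 h2 hv
  have h2 : 3 ≤ ∑ l ∈ QQ D v, Fc (Real.pi / 8) x l := by
    rw [sum_QQ]
    have h3 : ∑ _a ∈ nbrs v, (1 : ℝ) ≤
        ∑ a ∈ nbrs v, ∑ l ∈ PE (D.erase v) v a, Fc (Real.pi / 8) x l :=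
      Finset.sum_le_sum fun a ha => T2 hx0 hx hN (mem_nbrs'.1 ha)
    rw [Finset.sum_const, card_nbrs] at h3
    norm_num at h3
    exact h3
  rw [← sum_rev _ x hv] at h2
  exact h2.trans h1

end Pool.Agent.H99C
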