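import Pool.Agent.H99C.Len

set_option autoImplicit false

/-! The theorems in terms of sums over sets of lists. -/

namespace Pool.Agent.H99C

open H978R2.Hex Pool.Agent.H99B
open Pool.Agent.W832.HR (c3 c3_pos Br Br_nonneg)
open scoped ENNReal

/-- adjacency -/
def Nbr (p q : ℤ × ℤ) : Prop :=
  (p.2 = q.2 ∧ (p.1 - q.1 = 1 ∨ q.1 - p.1 = 1)) ∨
    (p.1 = q.1 ∧ ((q.2 = p.2 + 1 ∧ Even (p.1 + p.2)) ∨ (p.2 = q.2 + 1 ∧ Even (q.1 + q.2))))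

theorem nbr_iff {p q : V} : Nbr p q ↔ Adj p q := by
  rw [adj_iff]
  unfold Nbr
  simp only [Int.even_iff]
  omega

/-- the walks which cross `D` -/
def Cross (D : Set (ℤ × ℤ)) : Set (List (ℤ × ℤ)) :=
  {l | l.Nodup ∧ l.IsChain Nbr ∧ ∃ p w q, l = p :: (w ++ [q]) ∧ w ≠ [] ∧ p ∉ D ∧ q ∉ D ∧
    ∀ v ∈ w, v ∈ D}

theorem cross_iff {D : Finset V} {S : Set (ℤ × ℤ)} (hS : ∀ v, v ∈ D ↔ v ∈ S)
    {l : List (ℤ × ℤ)} : l ∈ Cross S ↔ l ∈ CC D := by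
  rw [mem_CC]
  constructor
  · rintro ⟨h1, h2, p, w, q, rfl, hw, hp, hq, hv⟩
    exact ⟨p, w, q, rfl, ⟨h2.imp (fun a b hab => nbr_iff.1 hab), h1,
      fun u hu => (hS u).2 (hv u hu), fun h => hp ((hS p).1 h)⟩, fun h => hq ((hS q).1 h), hw⟩
  · rintro ⟨z, w, b, rfl, h, hb, hw⟩
    exact ⟨h.nodup, h.chain.imp (fun a b hab => nbr_iff.2 hab), z, w, b, rfl, hw,
      fun h' => h.out ((hS z).2 h'), fun h' => hb ((hS b).2 h'), fun u hu => (hS u).1 (h.om u hu)⟩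

/-- the critical fugacity -/
noncomputable def xc : ℝ≥0∞ := ENNReal.ofReal (1 / Real.sqrt (2 + Real.sqrt 2))

theorem xc_eq : xc = ENNReal.ofReal (mu0⁻¹) := by
  unfold xc mu0
  rw [one_div]

theorem xc_pow (l : List V) : xc ^ (l.length - 2) = ENNReal.ofReal (Fc 0 mu0⁻¹ l) := by
  rw [Fc_zero, xc_eq, ENNReal.ofReal_pow]
  have := mu0_pos
  positivity

/-- sums over sets and sums over finite sets -/
theorem tsum_fin (A : Finset (List V)) (S : Set (List V)) (h : ∀ l, l ∈ S ↔ l ∈ A)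
    (g : List V → ℝ) (hg : ∀ l, 0 ≤ g l) :
    ∑' l : S, ENNReal.ofReal (g l) = ENNReal.ofReal (∑ l ∈ A, g l) := by
  have hS : S = (A : Set (List V)) := by
    ext l
    rw [h, Finset.mem_coe]
  subst hS
  rw [ENNReal.ofReal_sum_of_nonneg (fun l _ => hg l)]
  exact A.tsum_subtype (fun l => ENNReal.ofReal (g l))

/-- the finite domains without holes -/
theorem noHole_of {D : Finset V}
    (h : ∀ z, z ∉ D → ∃ u, (∀ v ∈ D, u.2 < v.2) ∧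
      Relation.ReflTransGen (fun p q => Nbr p q ∧ q ∉ D) z u) : NoHole D := by
  intro v l hc hv z hz
  obtain ⟨u, hu, hzu⟩ := h z hz
  have h1 : cw z (v :: l) = cw u (v :: l) := by
    clear hu
    induction hzu with
    | refl => rfl
    | @tail b c h1 h2 ih =>
      have hb : b ∉ D := by
        rcases Relation.ReflTransGen.cases_tail h1 with h3 | ⟨d, -, h3⟩
        · rw [h3]
          exact hz
        · exact h3.2
      rw [ih]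
      exact (cw_circ_base (nbr_iff.1 h2.1) hc (fun hm => hb (hv _ hm))
        (fun hm => h2.2 (hv _ hm))).symm
  rw [h1]
  refine cw_below ?_
  intro y hy
  have := hu y (hv y hy)
  unfold ht
  omega

/-- **the two-arm bound** -/
theorem two_arm (D : Finset V)
    (h : ∀ z, z ∉ D → ∃ u, (∀ v ∈ D, u.2 < v.2) ∧
      Relation.ReflTransGen (fun p q => Nbr p q ∧ q ∉ D) z u) {v : V} (hv : v ∈ D) :
    3 ≤ ∑' l : {l // l ∈ Cross (D : Set (ℤ × ℤ)) ∧ v ∈ l}, xc ^ (l.1.length - 2) := by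
  have h1 := three_le' (noHole_of h) hv
  have h2 := tsum_fin ((CC D).filter (fun l => v ∈ l))
    {l | l ∈ Cross (D : Set (ℤ × ℤ)) ∧ v ∈ l} (fun l => by
      rw [Finset.mem_filter]
      exact and_congr_left fun _ => cross_iff (fun v => by simp)) (Fc 0 mu0⁻¹) Fc0_nonneg
  have h3 : ∑' l : {l // l ∈ Cross (D : Set (ℤ × ℤ)) ∧ v ∈ l}, xc ^ (l.1.length - 2) =
      ∑' l : {l | l ∈ Cross (D : Set (ℤ × ℤ)) ∧ v ∈ l}, ENNReal.ofReal (Fc 0 mu0⁻¹ l) :=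
    tsum_congr fun l => xc_pow l.1
  rw [h3, h2]
  have h4 : (3 : ℝ≥0∞) = ENNReal.ofReal 3 := by simp
  rw [h4]
  exact ENNReal.ofReal_le_ofReal h1

/-- the triangle -/
def Tr (h : ℕ) : Set (ℤ × ℤ) :=
  {p | 1 ≤ p.1 - p.2 ∧ 1 - 2 * (h : ℤ) ≤ p.2 ∧ p.1 + p.2 ≤ 4 * (h : ℤ) + 1}

/-- the middle triangle -/
def Mid (h : ℕ) : Set (ℤ × ℤ) :=
  {p | 2 * (h : ℤ) + 1 ≤ p.1 - p.2 ∧ 1 - (h : ℤ) ≤ p.2 ∧ p.1 + p.2 ≤ 2 * (h : ℤ) + 1}

theorem mem_Tr (h : ℕ) (v : V) : v ∈ Th h ↔ v ∈ Tr h := by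
  rw [mem_Th]
  unfold Tri Tr
  simp only [Set.mem_ofPred_eq]
  omega

theorem mem_Mid (h : ℕ) (v : V) : v ∈ Mh h ↔ v ∈ Mid h := by
  rw [mem_Mh]
  unfold Tri Mid
  simp only [Set.mem_ofPred_eq]
  omega

/-- the walks which cross the triangle and visit the middle triangle -/
def Wk (h : ℕ) : Set (List (ℤ × ℤ)) := {l | l ∈ Cross (Tr h) ∧ ∃ v ∈ l, v ∈ Mid h}

/-- walks from `p` to `q` -/
def Ends (p q : ℤ × ℤ) : Set (List (ℤ × ℤ)) := {l | l.head? = some p ∧ l.getLast? = some q}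

/-- the total weight -/
noncomputable def Z (A : Set (List (ℤ × ℤ))) : ℝ≥0∞ := ∑' l : A, xc ^ (l.1.length - 2)

/-- the weighted number of visits -/
noncomputable def N (h : ℕ) (A : Set (List (ℤ × ℤ))) : ℝ≥0∞ :=
  ∑' l : A, ({v | v ∈ l.1 ∧ v ∈ Mid h}.ncard : ℝ≥0∞) * xc ^ (l.1.length - 2)

theorem vis_eq (h : ℕ) (l : List V) : {v | v ∈ l ∧ v ∈ Mid h}.ncard = vis (Mh h) l := by
  unfold vis
  rw [← Set.ncard_coe_finset]
  congr 1
  ext v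
  rw [Finset.mem_coe, Finset.mem_filter, mem_Mid, Set.mem_ofPred_eq, and_comm]

/-- the finite set of these walks -/
noncomputable def WF (h : ℕ) : Finset (List V) := (CC (Th h)).filter (fun l => ∃ v ∈ l, v ∈ Mh h)

theorem mem_WF (h : ℕ) (l : List V) : l ∈ Wk h ↔ l ∈ WF h := by
  unfold WF Wk
  rw [Finset.mem_filter, Set.mem_ofPred_eq, cross_iff (mem_Tr h)]
  refine and_congr_right fun _ => ?_
  simp only [mem_Mid]

theorem Z_eq (A : Finset (List V)) (S : Set (List V)) (h : ∀ l, l ∈ S ↔ l ∈ A) :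
    Z S = ENNReal.ofReal (∑ l ∈ A, Fc 0 mu0⁻¹ l) := by
  rw [← tsum_fin A S h (Fc 0 mu0⁻¹) Fc0_nonneg]
  exact tsum_congr fun l => xc_pow l.1

theorem N_eq (k : ℕ) (A : Finset (List V)) (S : Set (List V)) (h : ∀ l, l ∈ S ↔ l ∈ A) :
    N k S = ENNReal.ofReal (∑ l ∈ A, (vis (Mh k) l : ℝ) * Fc 0 mu0⁻¹ l) := by
  rw [← tsum_fin A S h (fun l => (vis (Mh k) l : ℝ) * Fc 0 mu0⁻¹ l)
    (fun l => mul_nonneg (Nat.cast_nonneg _) (Fc0_nonneg l))]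
  refine tsum_congr fun l => ?_
  rw [ENNReal.ofReal_mul (Nat.cast_nonneg _), ENNReal.ofReal_natCast, ← xc_pow, vis_eq]

/-- the real form of the bounds -/
theorem real_bounds {h : ℕ} (hh : 1 ≤ h) :
    ∑ l ∈ WF h, Fc 0 mu0⁻¹ l ≤ 204 * (h : ℝ) ^ (177 / 200 : ℝ) ∧
    3 * (h : ℝ) ^ 2 ≤ ∑ l ∈ WF h, (vis (Mh h) l : ℝ) * Fc 0 mu0⁻¹ l ∧
    (h : ℝ) ^ (223 / 200 : ℝ) / 68 * ∑ l ∈ WF h, Fc 0 mu0⁻¹ l ≤
      ∑ l ∈ WF h, (vis (Mh h) l : ℝ) * Fc 0 mu0⁻¹ l := by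
  have hh' : (0 : ℝ) < h := by exact_mod_cast hh
  have h1 := Z_le hh
  have h2 := Br_le hh
  have h3 := c3_ge
  have hS : 0 ≤ ∑ l ∈ WF h, Fc 0 mu0⁻¹ l := Finset.sum_nonneg fun l _ => Fc0_nonneg l
  have e1 : (h : ℝ) * (h : ℝ) ^ (-(23 / 200) : ℝ) = (h : ℝ) ^ (177 / 200 : ℝ) := by
    nth_rewrite 1 [← Real.rpow_one (h : ℝ)]
    rw [← Real.rpow_add hh']
    norm_num
  have hp : 0 < (h : ℝ) ^ (177 / 200 : ℝ) := Real.rpow_pos_of_pos hh' _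
  have a1 : ∑ l ∈ WF h, Fc 0 mu0⁻¹ l ≤ 204 * (h : ℝ) ^ (177 / 200 : ℝ) := by
    have h4 : 12 * (h : ℝ) * Br h ≤ 78 * (h : ℝ) ^ (177 / 200 : ℝ) := by
      rw [← e1]
      have := mul_le_mul_of_nonneg_left h2 (by positivity : (0 : ℝ) ≤ 12 * h)
      linarith
    have h5 : (0.38268 : ℝ) * ∑ l ∈ WF h, Fc 0 mu0⁻¹ l ≤ c3 * ∑ l ∈ WF h, Fc 0 mu0⁻¹ l :=
      mul_le_mul_of_nonneg_right h3 hS
    have h6 : c3 * ∑ l ∈ WF h, Fc 0 mu0⁻¹ l ≤ 12 * h * Br h := h1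
    have h7 := h5.trans (h6.trans h4)
    nlinarith
  have a2 : 3 * (h : ℝ) ^ 2 ≤ ∑ l ∈ WF h, (vis (Mh h) l : ℝ) * Fc 0 mu0⁻¹ l := by
    have h4 := visits (noHole_tri (D := Th h) (fun v => mem_Th v)) (M := Mh h)
      (Finset.filter_subset _ _)
    refine le_trans ?_ h4
    have h5 : ((h * h : ℕ) : ℝ) ≤ ((Mh h).card : ℝ) := by exact_mod_cast card_Mh h
    push_cast at h5
    nlinarith
  refine ⟨a1, a2, ?_⟩
  have e2 : (h : ℝ) ^ (223 / 200 : ℝ) * (h : ℝ) ^ (177 / 200 : ℝ) = (h : ℝ) ^ 2 := by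
    rw [← Real.rpow_add hh', ← Real.rpow_natCast]
    norm_num
  have hq : 0 ≤ (h : ℝ) ^ (223 / 200 : ℝ) / 68 := by positivity
  have h5 := mul_le_mul_of_nonneg_left a1 hq
  have e3 : (h : ℝ) ^ (223 / 200 : ℝ) / 68 * (204 * (h : ℝ) ^ (177 / 200 : ℝ)) =
      3 * (h : ℝ) ^ 2 := by
    rw [← e2]
    ring
  linarith

open Classical in
/-- some pair of end points -/
theorem exists_pair {h : ℕ} (hh : 1 ≤ h) : ∃ p q : V,
    0 < ∑ l ∈ (WF h).filter (fun l => l ∈ Ends p q), Fc 0 mu0⁻¹ l ∧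
    (h : ℝ) ^ (223 / 200 : ℝ) / 68 * ∑ l ∈ (WF h).filter (fun l => l ∈ Ends p q), Fc 0 mu0⁻¹ l ≤
      ∑ l ∈ (WF h).filter (fun l => l ∈ Ends p q), (vis (Mh h) l : ℝ) * Fc 0 mu0⁻¹ l := by
  classical
  obtain ⟨-, h2, h3⟩ := real_bounds hh
  have hh' : (0 : ℝ) < h := by exact_mod_cast hh
  set κ : List V → V × V := fun l => (l.headD (0, 0), l.getLastD (0, 0)) with hκ
  have hne : (WF h).Nonempty := by
    by_contra hc
    rw [Finset.not_nonempty_iff_eq_empty] at hc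
    rw [hc, Finset.sum_empty] at h2
    nlinarith
  have hmap : ∀ l ∈ WF h, κ l ∈ (WF h).image κ := fun l hl => Finset.mem_image_of_mem _ hl
  rw [Finset.mul_sum, ← Finset.sum_fiberwise_of_maps_to hmap,
    ← Finset.sum_fiberwise_of_maps_to hmap] at h3
  obtain ⟨pq, hpq, hle⟩ := Finset.exists_le_of_sum_le (hne.image κ) h3
  have hfil : (WF h).filter (fun l => κ l = pq) = (WF h).filter (fun l => l ∈ Ends pq.1 pq.2) := by
    refine Finset.filter_congr fun l hl => ?_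
    have h4 := (Finset.mem_filter.1 hl).1
    rw [mem_CC] at h4
    obtain ⟨z, w, b, rfl, -⟩ := h4
    have e1 : (z :: (w ++ [b])).getLast? = some b := by
      rw [← List.cons_append, List.getLast?_append]
      simp
    have e2 : (z :: (w ++ [b])).getLastD (0, 0) = b := by
      rw [List.getLastD_eq_getLast?, e1]
      rfl
    simp only [hκ, Ends, Set.mem_ofPred_eq, e1, e2, List.headD_cons, List.head?_cons,
      Option.some.injEq]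
    constructor
    · rintro rfl
      exact ⟨rfl, rfl⟩
    · rintro ⟨h5, h6⟩
      rw [h5, h6]
  rw [hfil, ← Finset.mul_sum] at hle
  refine ⟨pq.1, pq.2, ?_, hle⟩
  rw [Finset.mem_image] at hpq
  obtain ⟨l, hl, hl2⟩ := hpq
  have hl3 : l ∈ (WF h).filter (fun l => l ∈ Ends pq.1 pq.2) := by
    rw [← hfil, Finset.mem_filter]
    exact ⟨hl, hl2⟩
  have h5 : 0 < Fc 0 mu0⁻¹ l := by
    rw [Fc_zero]
    have := mu0_pos
    positivity
  exact lt_of_lt_of_le h5 (Finset.single_le_sum (f := Fc 0 mu0⁻¹)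
    (fun l _ => Fc0_nonneg l) hl3)

/-- **superlinear length** -/
theorem main {h : ℕ} (hh : 1 ≤ h) :
    (Z (Wk h) ≤ ENNReal.ofReal (204 * (h : ℝ) ^ (177 / 200 : ℝ)) ∧ 3 * (h : ℝ≥0∞) ^ 2 ≤ N h (Wk h) ∧
      ENNReal.ofReal ((h : ℝ) ^ (223 / 200 : ℝ) / 68) * Z (Wk h) ≤ N h (Wk h)) ∧
    ∃ p q : ℤ × ℤ, 0 < Z (Wk h ∩ Ends p q) ∧
      ENNReal.ofReal ((h : ℝ) ^ (223 / 200 : ℝ) / 68) * Z (Wk h ∩ Ends p q) ≤
        N h (Wk h ∩ Ends p q) := by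
  classical
  obtain ⟨h1, h2, h3⟩ := real_bounds hh
  have hq : 0 ≤ (h : ℝ) ^ (223 / 200 : ℝ) / 68 := by positivity
  have e1 := Z_eq (WF h) (Wk h) (mem_WF h)
  have e2 := N_eq h (WF h) (Wk h) (mem_WF h)
  refine ⟨⟨?_, ?_, ?_⟩, ?_⟩
  · rw [e1]
    exact ENNReal.ofReal_le_ofReal h1
  · rw [e2]
    have e3 : 3 * (h : ℝ≥0∞) ^ 2 = ENNReal.ofReal (3 * (h : ℝ) ^ 2) := by
      rw [ENNReal.ofReal_mul (by norm_num), ENNReal.ofReal_pow (by positivity),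
        ENNReal.ofReal_natCast]
      simp
    rw [e3]
    exact ENNReal.ofReal_le_ofReal h2
  · rw [e1, e2, ← ENNReal.ofReal_mul hq]
    exact ENNReal.ofReal_le_ofReal h3
  · obtain ⟨p, q, h4, h5⟩ := exists_pair hh
    have hm : ∀ l, l ∈ Wk h ∩ Ends p q ↔ l ∈ (WF h).filter (fun l => l ∈ Ends p q) := by
      intro l
      rw [Set.mem_inter_iff, Finset.mem_filter, mem_WF]
    have e3 := Z_eq _ (Wk h ∩ Ends p q) hm
    have e4 := N_eq h _ (Wk h ∩ Ends p q) hm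
    refine ⟨p, q, ?_, ?_⟩
    · rw [e3, ENNReal.ofReal_pos]
      exact h4
    · rw [e3, e4, ← ENNReal.ofReal_mul hq]
      exact ENNReal.ofReal_le_ofReal h5

end Pool.Agent.H99C
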