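import Pool.Agent.H99C.LoopW
import Pool.Agent.H99B.Fin

set_option autoImplicit false

/-! The parafermionic identity for finite domains which may surround the starting vertex. -/

namespace Pool.Agent.H99C

open H978R2.Hex Complex Pool.Agent.H99B

open Classical in
/-- the weight of a loop: `-2 cos 8c` for the loops around the origin, `-2 cos 4c` otherwise -/
noncomputable def lw (c : ℝ) (C : Finset (Sym2 V)) : ℝ :=
  if Sur C then -(2 * Real.cos (8 * c)) else -(2 * Real.cos (4 * c))

theorem trap_decomp' {Om : V → Prop} (hO : ¬ Om (0, 0)) {z : V} {t : List V}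
    (h : Good Om z t) (hz : Om z) (hzt : z ∈ t) :
    ∃ e M a q B, t = (e :: (M ++ [a])) ++ z :: q :: B := by
  obtain ⟨A, B', hAB⟩ := List.append_of_mem hzt
  have hB' : B' ≠ [] := by
    rintro rfl
    have := h.last
    rw [hAB] at this
    simp only [List.getLast?_append, List.getLast?_singleton, Option.some_or,
      Option.some.injEq] at this
    apply hO
    rw [this] at hz
    exact hz
  obtain ⟨q, B, rfl⟩ := List.exists_cons_of_ne_nil hB'
  match A, hAB with
  | [], hAB =>
    exfalso
    have hc := h.chain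
    rw [hAB, List.nil_append, List.isChain_cons_cons] at hc
    exact adj_ne' hc.1 rfl
  | e :: A', hAB =>
    rcases List.eq_nil_or_concat A' with h1 | ⟨M, a, h1⟩
    · exfalso
      rw [h1] at hAB
      exact h.nb e z (q :: B) hAB rfl
    · refine ⟨e, M, a, q, B, ?_⟩
      rw [hAB, h1, List.concat_eq_append]

/-- structure of a trapped walk -/
theorem trap_struct' {D : Finset V} (hO : (0, 0) ∉ D) {m : ℕ} {T : List V}
    (hT : T ∈ Tr D m) :
    ∃ z r q B, T = z :: (r ++ z :: q :: B) ∧ Circ z r ∧ z :: q :: B ∈ Free (· ∈ D) B.length ∧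
      (∀ v ∈ z :: r, v ∈ rest D (q :: B)) ∧ m = B.length + r.length + 1 ∧
      Good (· ∈ D) z (r ++ z :: q :: B) := by
  unfold Tr at hT
  rw [Finset.mem_filter] at hT
  obtain ⟨hP, hz, hzt⟩ := hT
  obtain ⟨z, t, rfl, hg, hlen⟩ := good_of_mem hP
  simp only [List.headD_cons, List.tail_cons] at hz hzt
  obtain ⟨e, M, a, q, B, rfl⟩ := trap_decomp' hO hg hz hzt
  have hn := hg.nodup
  rw [List.nodup_append] at hn
  have hzr : z ∉ e :: (M ++ [a]) := fun h => hn.2.2 z h z (by simp) rfl
  have hc := hg.chain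
  rw [← List.cons_append, List.isChain_split] at hc
  have hsub : Good (· ∈ D) z (q :: B) := by
    refine ⟨?_, hc.2, (List.nodup_cons.1 hn.2.1).2, ?_, ?_⟩
    · refine List.suffix_of_suffix_length_le hg.suff ?_ (by simp)
      rw [← List.cons_append]
      exact List.suffix_append _ _
    · intro v hv
      apply hg.om
      rw [List.dropLast_append_cons, List.dropLast_cons_cons]
      exact List.mem_append_right _ (List.mem_cons_of_mem _ hv)
    · intro y x r' h1 h2
      apply (List.nodup_cons.1 hn.2.1).1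
      rw [h1, h2]
      simp
  refine ⟨z, e :: (M ++ [a]), q, B, rfl, ⟨by simp, ?_, ?_⟩, ?_, ?_, ?_, hg⟩
  · rw [List.nodup_cons]
    exact ⟨hzr, hn.1⟩
  · exact hc.1.imp (fun a b hab => adj_symm' hab)
  · unfold Free
    rw [Finset.mem_filter]
    exact ⟨hsub.mem_P (by simp), by simpa using hz, by simpa using (List.nodup_cons.1 hn.2.1).1⟩
  · intro v hv
    rw [mem_rest]
    rcases List.mem_cons.1 hv with rfl | hv
    · exact ⟨hz, (List.nodup_cons.1 hn.2.1).1⟩
    · refine ⟨?_, ?_⟩
      · apply hg.om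
        rw [List.dropLast_append_cons]
        exact List.mem_append_left _ hv
      · intro h
        exact hn.2.2 v hv v (List.mem_cons_of_mem _ h) rfl
  · simp only [List.length_append, List.length_cons, List.length_nil] at hlen ⊢
    omega

theorem phase_pair' (c : ℝ) (w k s : ℤ) (hs : s = 1 ∨ s = -1) :
    exp (((w + k * s : ℤ) : ℂ) * c * I) + exp (((w - k * s : ℤ) : ℂ) * c * I) =
      (2 * Real.cos (k * c) : ℂ) * exp ((w : ℂ) * c * I) := by
  have e1 : ((w + k * s : ℤ) : ℂ) * c * I = (w : ℂ) * c * I + (s : ℂ) * (k * c * I) := by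
    push_cast; ring
  have e2 : ((w - k * s : ℤ) : ℂ) * c * I = (w : ℂ) * c * I + (s : ℂ) * (-(k * c * I)) := by
    push_cast; ring
  have e3 : (2 : ℂ) * (Real.cos (k * c) : ℂ) = exp (k * c * I) + exp (-(k * c * I)) := by
    rw [Complex.ofReal_cos, Complex.cos]
    push_cast
    have : -((k : ℂ) * (c : ℂ)) * I = -(k * c * I) := by ring
    rw [this]
    ring
  rw [e1, e2, Complex.exp_add, Complex.exp_add, e3]
  rcases hs with rfl | rfl
  · push_cast
    rw [one_mul, one_mul]
    ring
  · push_cast
    rw [neg_one_mul, neg_one_mul, neg_neg]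
    ring

/-- the two trapped walks with given base and loop -/
theorem pair_W (c : ℝ) {D : Finset V} (hO : (0, 0) ∉ D) {z q : V} {B k : List V}
    (hF : z :: q :: B ∈ Free (· ∈ D) B.length) (hk : Circ z k)
    (hkr : ∀ v ∈ k, v ∈ rest D (q :: B)) :
    ph c (z :: (k ++ z :: q :: B)) + ph c (z :: (k.reverse ++ z :: q :: B)) =
      -(lw c (edges (z :: (k ++ [z]))) : ℂ) * ph c (z :: q :: B) := by
  have hFf := hF
  unfold Free at hFf
  rw [Finset.mem_filter] at hFf
  obtain ⟨hP, hzD, hzt⟩ := hFf
  simp only [List.headD_cons, List.tail_cons] at hzD hzt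
  obtain ⟨z', t', h1, hg, -⟩ := good_of_mem hP
  simp only [List.cons.injEq] at h1
  obtain ⟨rfl, rfl⟩ := h1
  have hlast : (q :: B).getLast? = some (0, 0) := by
    have h2 := hg.last
    simpa using h2
  have hOk : (0, 0) ∉ z :: k := by
    intro hm
    rcases List.mem_cons.1 hm with h | h
    · rw [← h] at hzD
      exact hO hzD
    · exact hO (mem_rest.1 (hkr _ h)).1
  have hdis : ∀ y ∈ q :: B, y ∉ z :: k := by
    intro y hy hm
    rcases List.mem_cons.1 hm with h | h
    · rw [h] at hy
      exact hzt hy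
    · exact (mem_rest.1 (hkr _ h)).2 hy
  have hrev := circ_rev hk
  have hdis' : ∀ y ∈ q :: B, y ∉ z :: k.reverse := by
    intro y hy hm
    exact hdis y hy (by simpa using hm)
  have hcw := cw_rev hk hOk
  have hsur := sur_iff hk hOk
  obtain ⟨e, M, a, hkM, hze, haz, hea⟩ := circ_split hk
  have hkM' : k.reverse = a :: (M.reverse ++ [e]) := by rw [hkM]; simp
  have hc := hg.chain
  have w1 := W_trap' (hkM ▸ hk) hc (hkM ▸ hdis) hlast
  have w2 := W_trap' (hkM' ▸ hrev) hc (hkM' ▸ hdis') hlast
  rw [← hkM] at w1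
  rw [← hkM', hcw] at w2
  have hqz : Adj q z := (List.isChain_cons_cons.1 hc).1
  have hqa : q ≠ a := by
    rintro rfl
    exact hdis q (by simp) (by rw [hkM]; simp)
  have hqe : q ≠ e := by
    rintro rfl
    exact hdis q (by simp) (by rw [hkM]; simp)
  have ho := turn_other hqz (adj_symm' haz) hze hqa hqe (Ne.symm hea)
  have hpm := turn_pm hqz (adj_symm' haz) hqa
  unfold ph lw
  rw [w1, w2]
  by_cases h0 : cw (0, 0) (z :: k) = 0
  · rw [if_pos h0, if_pos (by rw [h0, neg_zero]), if_neg (fun h => hsur.1 h h0)]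
    have key := phase_pair' c (W (z :: q :: B)) (-4) (turn q z a) hpm
    have e1 : W (z :: q :: B) + -4 * turn q z e = W (z :: q :: B) - -4 * turn q z a := by
      rw [ho]; ring
    rw [e1, key]
    push_cast
    have e2 : Complex.cos (-4 * (c : ℂ)) = Complex.cos (4 * c) := by
      rw [neg_mul, Complex.cos_neg]
    rw [e2]
    ring
  · have h0' : ¬ (- cw (0, 0) (z :: k) = 0) := fun h => h0 (by linarith)
    rw [if_neg h0, if_neg h0', if_pos (hsur.2 h0)]
    have key := phase_pair' c (W (z :: q :: B)) 8 (turn q z a) hpm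
    have e1 : W (z :: q :: B) + 8 * turn q z e = W (z :: q :: B) - 8 * turn q z a := by
      rw [ho]; ring
    rw [e1, key]
    push_cast
    ring

/-- the trapped walks with given base and loop -/
theorem fiber_sum' (c x : ℝ) {D : Finset V} (hO : (0, 0) ∉ D) {N : ℕ}
    (hN : D.card < N) {z q : V} {B : List V} (hF : z :: q :: B ∈ Free (· ∈ D) B.length)
    {C : Finset (Sym2 V)} (hC : C ∈ loopsIn (rest D (q :: B))) (hz : ∃ e ∈ C, z ∈ e) :
    ∑ T ∈ ((TrA D N).filter (fun T => base T = z :: q :: B)).filter (fun T => loopOf T = C),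
      (x : ℂ) ^ (T.length - 2) * (ph c T * LamW (lw c) x (rest D T.tail)) =
    -((x : ℂ) ^ ((z :: q :: B).length - 2) * (ph c (z :: q :: B) *
      (lw c C * (x : ℂ) ^ C.card * LamW (lw c) x (avoid (rest D (q :: B)) C)))) := by
  classical
  obtain ⟨hCD, v0, l0, h0, hC0⟩ := mem_loopsIn.1 hC
  obtain ⟨e0, he0, hz0⟩ := hz
  have hz1 : z ∈ v0 :: l0 := by
    rw [hC0] at he0
    have := mem_of_edges he0 hz0
    simp only [List.mem_cons, List.mem_append, List.not_mem_nil, or_false] at this ⊢
    tauto
  obtain ⟨k, hk, hkC⟩ := reroot h0 hz1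
  rw [← hC0] at hkC
  have hFf := hF
  unfold Free at hFf
  rw [Finset.mem_filter] at hFf
  obtain ⟨hP, hzD, hzt⟩ := hFf
  simp only [List.headD_cons, List.tail_cons] at hzD hzt
  have hnk := List.nodup_cons.1 hk.nodup
  have hkr : ∀ v ∈ k, v ∈ rest D (q :: B) := by
    intro v hv
    obtain ⟨e, he, hve⟩ := exists_edge (L := z :: (k ++ [z])) (by simp) (v := v)
      (by simp [hv])
    rw [hkC] at he
    exact hCD e he v hve
  -- the reversed circuit
  have hk' : Circ z k.reverse := circ_rev hk
  have hkr' : ∀ v ∈ k.reverse, v ∈ rest D (q :: B) := fun v hv => hkr v (by simpa using hv)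
  have g1 := good_add hF hk hkr
  have g2 := good_add hF hk' hkr'
  have hcard : C.card = k.length + 1 := by
    rw [← hkC, card_circuit hk.len hk.nodup]
  have hne : k ≠ k.reverse := by
    obtain ⟨e, M, a, hkM, -, -, hea⟩ := circ_split hk
    have hkM' : k.reverse = a :: (M.reverse ++ [e]) := by rw [hkM]; simp
    rw [hkM', hkM]
    intro h
    exact hea (List.cons.inj h).1
  have mem1 : ∀ (k' : List V), Circ z k' → k'.length = k.length →
      Good (· ∈ D) z (k' ++ z :: q :: B) → edges (z :: (k' ++ [z])) = C →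
      z :: (k' ++ z :: q :: B) ∈ ((TrA D N).filter (fun T => base T = z :: q :: B)).filter
        (fun T => loopOf T = C) := by
    intro k' hk1 hlen hg hE
    have hzk : z ∉ k' := (List.nodup_cons.1 hk1.nodup).1
    rw [Finset.mem_filter, Finset.mem_filter]
    refine ⟨⟨?_, (base_loop hzk).1⟩, by rw [(base_loop hzk).2, hE]⟩
    have hmem : z :: (k' ++ z :: q :: B) ∈ P (· ∈ D) (B.length + k'.length + 1) :=
      hg.mem_P (by simp only [List.length_append, List.length_cons]; omega)
    have hle := le_card hmem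
    unfold TrA
    rw [Finset.mem_biUnion]
    refine ⟨B.length + k'.length + 1, Finset.mem_range.2 (by omega), ?_⟩
    unfold Tr
    rw [Finset.mem_filter]
    exact ⟨hmem, by simpa using hzD, by simp⟩
  have hset : ((TrA D N).filter (fun T => base T = z :: q :: B)).filter (fun T => loopOf T = C) =
      {z :: (k ++ z :: q :: B), z :: (k.reverse ++ z :: q :: B)} := by
    ext T
    rw [Finset.mem_insert, Finset.mem_singleton]
    constructor
    · intro hT
      rw [Finset.mem_filter, Finset.mem_filter] at hT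
      obtain ⟨⟨hT1, hT2⟩, hT3⟩ := hT
      unfold TrA at hT1
      rw [Finset.mem_biUnion] at hT1
      obtain ⟨m, -, hT1⟩ := hT1
      obtain ⟨z', r, q', B', rfl, hr, -, -, -, -⟩ := trap_struct' hO hT1
      have hzr : z' ∉ r := (List.nodup_cons.1 hr.nodup).1
      rw [(base_loop hzr).1] at hT2
      rw [(base_loop hzr).2] at hT3
      simp only [List.cons.injEq] at hT2
      obtain ⟨rfl, rfl, rfl⟩ := hT2
      have := uniq hk.len hk.nodup hr.len hr.nodup (by rw [hkC, hT3])
      rcases this with rfl | rfl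
      · left; rfl
      · right; rfl
    · rintro (rfl | rfl)
      · exact mem1 k hk rfl g1 hkC
      · exact mem1 k.reverse hk' (by simp) g2 (by rw [edges_rev, hkC])
  rw [hset, Finset.sum_pair]
  · -- values
    have t1 : (z :: (k ++ z :: q :: B)).tail = k ++ z :: q :: B := rfl
    have t2 : (z :: (k.reverse ++ z :: q :: B)).tail = k.reverse ++ z :: q :: B := rfl
    have l1 : (z :: (k ++ z :: q :: B)).length - 2 = ((z :: q :: B).length - 2) + C.card := by
      rw [hcard]
      simp only [List.length_append, List.length_cons]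
      omega
    have l2 : (z :: (k.reverse ++ z :: q :: B)).length - 2 =
        ((z :: q :: B).length - 2) + C.card := by
      rw [hcard]
      simp only [List.length_append, List.length_cons, List.length_reverse]
      omega
    rw [t1, t2, l1, l2, rest_add hk hzt, rest_add hk' hzt, edges_rev, hkC]
    have key := pair_W c hO hF hk hkr
    rw [hkC] at key
    rw [pow_add]
    linear_combination ((x : ℂ) ^ ((z :: q :: B).length - 2) * (x : ℂ) ^ C.card *
      (LamW (lw c) x (avoid (rest D (q :: B)) C) : ℂ)) * key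
  · intro h
    apply hne
    simp only [List.cons.injEq, true_and] at h
    exact List.append_cancel_right h

/-- the trapped walks cancel the loops through the next vertex -/
theorem cancel' (c x : ℝ) {D : Finset V} (hO : (0, 0) ∉ D) {N : ℕ} (hN : D.card < N) :
    ∑ m ∈ Finset.range N, (x : ℂ) ^ m *
        ∑ l ∈ Tr D m, ph c l * LamW (lw c) x (rest D l.tail) +
      ∑ m ∈ Finset.range N, (x : ℂ) ^ m *
        ∑ l ∈ Free (· ∈ D) m,
          ph c l * ((LamW (lw c) x (rest D l.tail) : ℂ) - LamW (lw c) x (rest D l)) = 0 := by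
  classical
  rw [← sum_TrA, ← sum_FrA]
  have hmap : ∀ T ∈ TrA D N, base T ∈ FrA D N := by
    intro T hT
    unfold TrA at hT
    rw [Finset.mem_biUnion] at hT
    obtain ⟨m, hm, hT⟩ := hT
    obtain ⟨z, r, q, B, rfl, hr, hF, -, hmm, -⟩ := trap_struct' hO hT
    rw [(base_loop (List.nodup_cons.1 hr.nodup).1).1]
    unfold FrA
    rw [Finset.mem_biUnion]
    rw [Finset.mem_range] at hm
    exact ⟨B.length, Finset.mem_range.2 (by omega), hF⟩
  rw [← Finset.sum_fiberwise_of_maps_to hmap, ← Finset.sum_add_distrib]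
  refine Finset.sum_eq_zero fun l0 hl0 => ?_
  unfold FrA at hl0
  rw [Finset.mem_biUnion] at hl0
  obtain ⟨m, hm, hF⟩ := hl0
  obtain ⟨z, t, rfl, hg, hlen⟩ := good_of_mem (Fr_sub hF)
  match t, hg, hlen, hF with
  | [], _, hlen, _ => simp at hlen
  | q :: B, hg, hlen, hF =>
    have hmB : m = B.length := by simpa using hlen.symm
    subst hmB
    have hF2 := hF
    unfold Free at hF2
    rw [Finset.mem_filter] at hF2
    obtain ⟨-, hzD, hzt⟩ := hF2
    simp only [List.headD_cons, List.tail_cons] at hzD hzt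
    have hzr : z ∈ rest D (q :: B) := mem_rest.2 ⟨hzD, hzt⟩
    have hmap2 : ∀ T ∈ (TrA D N).filter (fun T => base T = z :: q :: B),
        loopOf T ∈ (loopsIn (rest D (q :: B))).filter (fun C => ∃ e ∈ C, z ∈ e) := by
      intro T hT
      rw [Finset.mem_filter] at hT
      obtain ⟨hT, hT2⟩ := hT
      unfold TrA at hT
      rw [Finset.mem_biUnion] at hT
      obtain ⟨m', -, hT⟩ := hT
      obtain ⟨z', r, q', B', rfl, hr, -, hv, -, -⟩ := trap_struct' hO hT
      have hzr' := (List.nodup_cons.1 hr.nodup).1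
      rw [(base_loop hzr').1] at hT2
      simp only [List.cons.injEq] at hT2
      obtain ⟨rfl, rfl, rfl⟩ := hT2
      rw [(base_loop hzr').2, Finset.mem_filter, mem_loopsIn]
      refine ⟨⟨?_, z', r, hr, rfl⟩, ?_⟩
      · intro e he v hve
        apply hv
        have := mem_of_edges he hve
        simp only [List.mem_cons, List.mem_append, List.not_mem_nil, or_false] at this ⊢
        tauto
      · exact exists_edge (by simp) (by simp)
    rw [← Finset.sum_fiberwise_of_maps_to hmap2]
    rw [Finset.sum_congr rfl fun C hC => fiber_sum' c x hO hN hF (Finset.mem_filter.1 hC).1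
      (Finset.mem_filter.1 hC).2]
    have hd := LamW_decomp (lw c) x (rest D (q :: B)) hzr
    rw [← rest_cons] at hd
    simp only [List.tail_cons]
    have hd2 : (LamW (lw c) x (rest D (q :: B)) : ℂ) - LamW (lw c) x (rest D (z :: q :: B)) =
        ∑ C ∈ (loopsIn (rest D (q :: B))).filter (fun C => ∃ e ∈ C, z ∈ e),
          (lw c C * (x : ℂ) ^ C.card * LamW (lw c) x (avoid (rest D (q :: B)) C)) := by
      rw [hd]
      push_cast
      rw [add_sub_cancel_left]
    rw [hd2, Finset.sum_neg_distrib, ← Finset.mul_sum, ← Finset.mul_sum]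
    ring

theorem step_sum2 (c x : ℝ) (D : Finset V) (f : Finset (Sym2 V) → ℝ) (m : ℕ) :
    ∑ l ∈ P (· ∈ D) (m + 1), ph c l * LamW f x (rest D l.tail) =
      (2 * Real.cos c : ℂ) * ∑ l ∈ Free (· ∈ D) m, ph c l * LamW f x (rest D l) := by
  rw [sum_P_succ, Finset.mul_sum]
  refine Finset.sum_congr rfl fun l hl => ?_
  unfold Free at hl
  rw [Finset.mem_filter] at hl
  obtain ⟨z, t, rfl, hg, hlen⟩ := good_of_mem hl.1
  match t, hg, hlen with
  | y :: t, hg, hlen =>
    have hc := hg.chain
    rw [List.isChain_cons_cons] at hc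
    simp only [List.headD_cons, List.tail_cons]
    rw [← Finset.sum_mul, sum_two' c hc.1 t, mul_assoc]
  | [], _, hlen => simp at hlen

/-- **The parafermionic identity**: the domain is any finite set which does not contain the origin. -/
theorem ident_W (c x : ℝ) (hx : x * (2 * Real.cos c) = 1) {D : Finset V} (hO : (0, 0) ∉ D) :
    ∑ m ∈ Finset.range (D.card + 2), (x : ℂ) ^ m *
      ∑ l ∈ Ld D m, ph c l * LamW (lw c) x (rest D l.tail) = LamW (lw c) x D := by
  have hcancel := cancel' c x hO (N := D.card + 2) (by omega)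
  have hx' : (x : ℂ) * (2 * Real.cos c : ℂ) = 1 := by exact_mod_cast hx
  -- the sum over all walks
  have hall : ∑ m ∈ Finset.range (D.card + 2), (x : ℂ) ^ m *
      ∑ l ∈ P (· ∈ D) m, ph c l * LamW (lw c) x (rest D l.tail) =
      LamW (lw c) x D + ∑ m ∈ Finset.range (D.card + 2), (x : ℂ) ^ m *
        ∑ l ∈ Free (· ∈ D) m, ph c l * LamW (lw c) x (rest D l) := by
    rw [Finset.sum_range_succ' _ (D.card + 1)]
    have e0 : (x : ℂ) ^ 0 * ∑ l ∈ P (· ∈ D) 0, ph c l * LamW (lw c) x (rest D l.tail) =
        LamW (lw c) x D := by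
      have h2 : P (· ∈ D) 0 = {[(1, 0), (0, 0)]} := rfl
      have h3 : rest D [(0, 0)] = D := by
        ext v
        rw [mem_rest, List.mem_singleton]
        constructor
        · exact fun h => h.1
        · intro h
          refine ⟨h, ?_⟩
          rintro rfl
          exact hO h
      rw [h2, Finset.sum_singleton, pow_zero, one_mul]
      simp only [List.tail_cons]
      rw [h3]
      simp [ph, W]
    rw [e0, add_comm]
    congr 1
    rw [Finset.sum_range_succ _ (D.card + 1)]
    have e1 : Free (· ∈ D) (D.card + 1) = ∅ := by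
      rw [Finset.eq_empty_iff_forall_notMem]
      intro l hl
      have := le_card (Fr_sub hl)
      omega
    rw [e1, Finset.sum_empty, mul_zero, add_zero]
    refine Finset.sum_congr rfl fun m _ => ?_
    rw [step_sum2, pow_succ]
    linear_combination ((x : ℂ) ^ m *
      ∑ l ∈ Free (· ∈ D) m, ph c l * LamW (lw c) x (rest D l)) * hx'
  have hsplit : ∑ m ∈ Finset.range (D.card + 2), (x : ℂ) ^ m *
      ∑ l ∈ P (· ∈ D) m, ph c l * LamW (lw c) x (rest D l.tail) =
      ∑ m ∈ Finset.range (D.card + 2), (x : ℂ) ^ m *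
        ∑ l ∈ Free (· ∈ D) m, ph c l * LamW (lw c) x (rest D l.tail) +
      ∑ m ∈ Finset.range (D.card + 2), (x : ℂ) ^ m *
        ∑ l ∈ Tr D m, ph c l * LamW (lw c) x (rest D l.tail) +
      ∑ m ∈ Finset.range (D.card + 2), (x : ℂ) ^ m *
        ∑ l ∈ Ld D m, ph c l * LamW (lw c) x (rest D l.tail) := by
    rw [← Finset.sum_add_distrib, ← Finset.sum_add_distrib]
    refine Finset.sum_congr rfl fun m _ => ?_
    rw [split_all]
    ring
  have hdiff : ∑ m ∈ Finset.range (D.card + 2), (x : ℂ) ^ m *
        ∑ l ∈ Free (· ∈ D) m,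
          ph c l * ((LamW (lw c) x (rest D l.tail) : ℂ) - LamW (lw c) x (rest D l)) =
      ∑ m ∈ Finset.range (D.card + 2), (x : ℂ) ^ m *
        ∑ l ∈ Free (· ∈ D) m, ph c l * LamW (lw c) x (rest D l.tail) -
      ∑ m ∈ Finset.range (D.card + 2), (x : ℂ) ^ m *
        ∑ l ∈ Free (· ∈ D) m, ph c l * LamW (lw c) x (rest D l) := by
    rw [← Finset.sum_sub_distrib]
    refine Finset.sum_congr rfl fun m _ => ?_
    rw [← mul_sub, ← Finset.sum_sub_distrib]
    congr 1
    refine Finset.sum_congr rfl fun l _ => ?_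
    ring
  rw [hdiff] at hcancel
  rw [hsplit] at hall
  linear_combination hall - hcancel

end Pool.Agent.H99C
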