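import Pool.Agent.H99C.Upper

set_option autoImplicit false

/-! The number of visits of the middle triangle by the walks which cross a triangle. -/

namespace Pool.Agent.H99C

open H978R2.Hex Pool.Agent.H99B
open Pool.Agent.W832.HR (c3 c3_pos Br Br_nonneg)
open scoped ENNReal

/-- all walks which cross `D` -/
noncomputable def CC (D : Finset V) : Finset (List V) := (bd D).biUnion (fun p => PE D p.1 p.2)

theorem mem_CC {D : Finset V} {l : List V} :
    l ∈ CC D ↔ ∃ z w b, l = z :: (w ++ [b]) ∧ Cor D z w b ∧ b ∉ D ∧ w ≠ [] := by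
  unfold CC
  rw [Finset.mem_biUnion]
  constructor
  · rintro ⟨p, hp, hl⟩
    rw [mem_PE'] at hl
    obtain ⟨z, w, rfl, h, hs⟩ := hl
    have hp' := mem_bd.1 hp
    refine ⟨z, w, p.1, rfl, h, hp'.2.1, ?_⟩
    rintro rfl
    have h1 : [p.2, p.1] <:+ [z, p.1] := by simpa using hs
    have h2 := (suff_unique h1 (List.suffix_refl _)).1
    exact h.out (h2 ▸ hp'.1)
  · rintro ⟨z, w, b, rfl, h, hb, hw⟩
    obtain ⟨a, h1, h2, h3⟩ := h.last
    have haw : a ∈ w := by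
      rcases h3 with h3 | ⟨h3, -⟩
      · exact h3
      · exact absurd h3 hw
    exact ⟨(b, a), mem_bd.2 ⟨h.om a haw, hb, h2⟩, mem_PE'.2 ⟨z, w, rfl, h, h1⟩⟩

theorem SS_eq (D : Finset V) (v : V) : SS D v = (CC D).filter (fun l => v ∈ l) := by
  unfold SS CC
  rw [Finset.filter_biUnion]

theorem sum_CC (D : Finset V) (p : List V → Prop) [DecidablePred p] (F : List V → ℝ) :
    ∑ l ∈ (CC D).filter p, F l = ∑ q ∈ bd D, ∑ l ∈ (PE D q.1 q.2).filter p, F l := by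
  unfold CC
  rw [Finset.filter_biUnion, Finset.sum_biUnion]
  intro p' _ q _ hpq
  simp only [Function.onFun]
  rw [Finset.disjoint_left]
  intro l h1 h2
  rw [Finset.mem_filter, mem_PE'] at h1 h2
  obtain ⟨⟨_, _, _, _, h1⟩, -⟩ := h1
  obtain ⟨⟨_, _, _, _, h2⟩, -⟩ := h2
  obtain ⟨h3, h4⟩ := suff_unique h1 h2
  exact hpq (Prod.ext h4 h3)

theorem Fc8_le {l : List V} : Fc (Real.pi / 8) mu0⁻¹ l ≤ Fc 0 mu0⁻¹ l := by
  have hmu : 0 ≤ mu0⁻¹ := by
    have := mu0_pos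
    positivity
  rw [Fc_zero]
  unfold Fc
  exact mul_le_of_le_one_right (pow_nonneg hmu _) (Real.cos_le_one _)

theorem Fc0_nonneg (l : List V) : 0 ≤ Fc 0 mu0⁻¹ l := by
  have hmu : 0 ≤ mu0⁻¹ := by
    have := mu0_pos
    positivity
  rw [Fc_zero]
  exact pow_nonneg hmu _

/-- the two-arm bound with plain weights -/
theorem three_le' {D : Finset V} (hN : NoHole D) {v : V} (hv : v ∈ D) :
    3 ≤ ∑ l ∈ (CC D).filter (fun l => v ∈ l), Fc 0 mu0⁻¹ l := by
  have hmu : 0 ≤ mu0⁻¹ := by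
    have := mu0_pos
    positivity
  have h := three_le hmu hx8 hN hv
  rw [SS_eq] at h
  exact h.trans (Finset.sum_le_sum fun l _ => Fc8_le)

/-- the number of vertices of `M` on the walk -/
def vis (M : Finset V) (l : List V) : ℕ := (M.filter (fun v => v ∈ l)).card

theorem visits {D M : Finset V} (hN : NoHole D) (hM : M ⊆ D) :
    3 * (M.card : ℝ) ≤ ∑ l ∈ (CC D).filter (fun l => ∃ v ∈ l, v ∈ M), (vis M l : ℝ) * Fc 0 mu0⁻¹ l := by
  have h1 : 3 * (M.card : ℝ) ≤ ∑ v ∈ M, ∑ l ∈ (CC D).filter (fun l => v ∈ l), Fc 0 mu0⁻¹ l := by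
    have : 3 * (M.card : ℝ) = ∑ _v ∈ M, (3 : ℝ) := by
      rw [Finset.sum_const, nsmul_eq_mul]
      ring
    rw [this]
    exact Finset.sum_le_sum fun v hv => three_le' hN (hM hv)
  refine h1.trans (le_of_eq ?_)
  have h2 : ∀ v ∈ M, ∑ l ∈ (CC D).filter (fun l => v ∈ l), Fc 0 mu0⁻¹ l =
      ∑ l ∈ (CC D).filter (fun l => ∃ v ∈ l, v ∈ M),
        if v ∈ l then Fc 0 mu0⁻¹ l else 0 := by
    intro v hv
    rw [← Finset.sum_filter, Finset.filter_filter]
    refine Finset.sum_congr (Finset.filter_congr fun l _ => ?_) fun _ _ => rfl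
    constructor
    · intro h
      exact ⟨⟨v, h, hv⟩, h⟩
    · exact fun h => h.2
  rw [Finset.sum_congr rfl h2, Finset.sum_comm]
  refine Finset.sum_congr rfl fun l _ => ?_
  unfold vis
  rw [← Finset.sum_filter, Finset.sum_const, nsmul_eq_mul]

/-- the triangle of side `4 h` -/
noncomputable def Th (h : ℕ) : Finset V :=
  ((Finset.Icc (-(2 * (h : ℤ))) (6 * (h : ℤ))) ×ˢ
    (Finset.Icc (-(2 * (h : ℤ))) (2 * (h : ℤ)))).filter
      (Tri 0 (-(2 * (h : ℤ))) (-(2 * (h : ℤ)) - 1))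

theorem mem_Th {h : ℕ} (v : V) : v ∈ Th h ↔ Tri 0 (-(2 * (h : ℤ))) (-(2 * (h : ℤ)) - 1) v := by
  unfold Th
  rw [Finset.mem_filter, Finset.mem_product, Finset.mem_Icc, Finset.mem_Icc]
  constructor
  · exact fun h => h.2
  · intro h1
    refine ⟨?_, h1⟩
    unfold Tri at h1
    omega

/-- the middle triangle -/
noncomputable def Mh (h : ℕ) : Finset V := (Th h).filter (Tri (0 + h) (-(2 * (h : ℤ)) + h) (-(2 * (h : ℤ)) - 1 + h))

theorem mem_Mh {h : ℕ} (v : V) :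
    v ∈ Mh h ↔ Tri (0 + h) (-(2 * (h : ℤ)) + h) (-(2 * (h : ℤ)) - 1 + h) v := by
  unfold Mh
  rw [Finset.mem_filter, mem_Th]
  constructor
  · exact fun h => h.2
  · intro h1
    refine ⟨?_, h1⟩
    unfold Tri at h1 ⊢
    omega

theorem sum_odd (h : ℕ) : ∑ j ∈ Finset.range h, (2 * j + 1) = h * h := by
  induction h with
  | zero => rfl
  | succ h ih =>
    rw [Finset.sum_range_succ, ih]
    ring

theorem card_Mh (h : ℕ) : h * h ≤ (Mh h).card := by
  rw [← sum_odd h]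
  have e : ∑ j ∈ Finset.range h, (2 * j + 1) =
      ((Finset.range h).sigma (fun j => Finset.range (2 * j + 1))).card := by
    rw [Finset.card_sigma]
    simp
  rw [e]
  refine Finset.card_le_card_of_injOn
    (fun s => (-(s.1 : ℤ) + 2 * h + 1 + s.2, -(s.1 : ℤ))) ?_ ?_
  · rintro ⟨j, i⟩ hs
    rw [Finset.mem_coe, Finset.mem_sigma, Finset.mem_range, Finset.mem_range] at hs
    rw [Finset.mem_coe, mem_Mh]
    unfold Tri
    simp only at hs ⊢
    omega
  · rintro ⟨j, i⟩ _ ⟨j', i'⟩ _ hst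
    simp only [Prod.mk.injEq] at hst
    obtain ⟨h1, h2⟩ := hst
    have h3 : j = j' := by omega
    subst h3
    have h4 : i = i' := by omega
    rw [h4]

theorem card_bd (h : ℕ) : (bd (Th h)).card ≤ 12 * h := by
  have hsub : bd (Th h) ⊆
      ((Finset.range (4 * h)).image (fun i : ℕ =>
        ((((i : ℤ) - 2 * h + 1, (i : ℤ) - 2 * h + 1) : V), (((i : ℤ) - 2 * h + 2, (i : ℤ) - 2 * h + 1) : V))) ∪
      (Finset.range (4 * h)).image (fun i : ℕ =>
        (((2 * (i : ℤ) - 2 * h + 2, -(2 * (h : ℤ))) : V), ((2 * (i : ℤ) - 2 * h + 2, -(2 * (h : ℤ)) + 1) : V)))) ∪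
      (Finset.range (4 * h)).image (fun i : ℕ =>
        (((2 * h + 2 + (i : ℤ), 2 * h - (i : ℤ)) : V), ((2 * h + 1 + (i : ℤ), 2 * h - (i : ℤ)) : V))) := by
    intro p hp
    rw [mem_bd, mem_Th, mem_Th] at hp
    obtain ⟨⟨b1, b2⟩, ⟨a1, a2⟩⟩ := p
    obtain ⟨h1, h2, h3⟩ := hp
    rw [adj_iff] at h3
    unfold Tri at h1 h2
    simp only at h1 h2 h3
    have hcase : (b1 - b2 = 0 ∧ a1 = b1 + 1 ∧ a2 = b2) ∨
      (b2 = -(2 * (h : ℤ)) ∧ a1 = b1 ∧ a2 = b2 + 1 ∧ (b1 + b2) % 2 = 0) ∨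
      (b1 + b2 = 4 * (h : ℤ) + 2 ∧ a1 = b1 - 1 ∧ a2 = b2) := by omega
    rw [Finset.mem_union, Finset.mem_union, Finset.mem_image, Finset.mem_image, Finset.mem_image]
    rcases hcase with ⟨c1, c2, c3⟩ | ⟨c1, c2, c3, c4⟩ | ⟨c1, c2, c3⟩
    · left; left
      refine ⟨(b2 + 2 * h - 1).toNat, ?_, ?_⟩
      · rw [Finset.mem_range]
        omega
      · simp only [Prod.mk.injEq]
        omega
    · left; right
      refine ⟨((b1 + 2 * h - 2) / 2).toNat, ?_, ?_⟩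
      · rw [Finset.mem_range]
        omega
      · simp only [Prod.mk.injEq]
        omega
    · right
      refine ⟨(2 * h - b2).toNat, ?_, ?_⟩
      · rw [Finset.mem_range]
        omega
      · simp only [Prod.mk.injEq]
        omega
  refine (Finset.card_le_card hsub).trans ?_
  refine (Finset.card_union_le _ _).trans ?_
  have h1 := Finset.card_union_le
    ((Finset.range (4 * h)).image (fun i : ℕ =>
        ((((i : ℤ) - 2 * h + 1, (i : ℤ) - 2 * h + 1) : V), (((i : ℤ) - 2 * h + 2, (i : ℤ) - 2 * h + 1) : V))))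
    ((Finset.range (4 * h)).image (fun i : ℕ =>
        (((2 * (i : ℤ) - 2 * h + 2, -(2 * (h : ℤ))) : V), ((2 * (i : ℤ) - 2 * h + 2, -(2 * (h : ℤ)) + 1) : V))))
  have h2 : ∀ f : ℕ → V × V, ((Finset.range (4 * h)).image f).card ≤ 4 * h := by
    intro f
    refine Finset.card_image_le.trans ?_
    rw [Finset.card_range]
  have h3 := h2 (fun i : ℕ =>
        ((((i : ℤ) - 2 * h + 1, (i : ℤ) - 2 * h + 1) : V), (((i : ℤ) - 2 * h + 2, (i : ℤ) - 2 * h + 1) : V)))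
  have h4 := h2 (fun i : ℕ =>
        (((2 * (i : ℤ) - 2 * h + 2, -(2 * (h : ℤ))) : V), ((2 * (i : ℤ) - 2 * h + 2, -(2 * (h : ℤ)) + 1) : V)))
  have h5 := h2 (fun i : ℕ =>
        (((2 * h + 2 + (i : ℤ), 2 * h - (i : ℤ)) : V), ((2 * h + 1 + (i : ℤ), 2 * h - (i : ℤ)) : V)))
  omega

/-- the total weight of the walks which visit the middle triangle -/
theorem Z_le {h : ℕ} (hh : 1 ≤ h) :
    c3 * ∑ l ∈ (CC (Th h)).filter (fun l => ∃ v ∈ l, v ∈ Mh h), Fc 0 mu0⁻¹ l ≤ 12 * h * Br h := by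
  rw [sum_CC, Finset.mul_sum]
  have h1 : ∀ q ∈ bd (Th h), c3 * ∑ l ∈ (PE (Th h) q.1 q.2).filter (fun l => ∃ v ∈ l, v ∈ Mh h),
      Fc 0 mu0⁻¹ l ≤ Br h := by
    intro q hq
    obtain ⟨h2, h3, h4⟩ := mem_bd.1 hq
    refine le_trans ?_ (upper (D := Th h) (fun v => mem_Th v) h3 h2 h4 hh)
    refine mul_le_mul_of_nonneg_left ?_ c3_pos.le
    refine Finset.sum_le_sum_of_subset_of_nonneg ?_ (fun l _ _ => Fc0_nonneg l)
    intro l hl
    rw [Finset.mem_filter] at hl ⊢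
    obtain ⟨h5, v, hv, hvM⟩ := hl
    exact ⟨h5, v, hv, (Finset.mem_filter.1 hvM).1, (mem_Mh v).1 hvM⟩
  refine (Finset.sum_le_sum h1).trans ?_
  rw [Finset.sum_const, nsmul_eq_mul]
  refine mul_le_mul_of_nonneg_right ?_ (Br_nonneg h)
  exact_mod_cast card_bd h

theorem Br_le {h : ℕ} (hh : 1 ≤ h) : Br h ≤ 13 / 2 * (h : ℝ) ^ (-(23 / 200) : ℝ) := by
  have h2 := Pool.Agent.TH232.WX.M_bridge (h : ℤ) (by omega)
  rw [Pool.Agent.Y153.GP.eq h hh] at h2
  rw [ENNReal.ofReal_le_ofReal_iff (by positivity)] at h2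
  refine h2.trans (le_of_eq ?_)
  push_cast
  rfl

/-- numerical value of `cos (3 π / 8)` -/
theorem c3_ge : (0.38268 : ℝ) ≤ c3 := by
  have e : c3 = Real.sin (Real.pi / 8) := by
    unfold c3
    rw [← Real.cos_pi_div_two_sub]
    congr 1
    ring
  rw [e, Real.sin_pi_div_eight]
  have h2 : Real.sqrt 2 ≤ 1.41421357 := by
    rw [Real.sqrt_le_left (by norm_num)]
    norm_num
  have h3 : (0.76536 : ℝ) ≤ Real.sqrt (2 - Real.sqrt 2) := by
    apply Real.le_sqrt_of_sq_le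
    nlinarith
  linarith

end Pool.Agent.H99C
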