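import Pool.Agent.H99C.Turn3
import Pool.Agent.H99B.Loops

set_option autoImplicit false

/-! Partition functions of loop configurations with general loop weights. -/

namespace Pool.Agent.H99C

open H978R2.Hex Pool.Agent.H99B

/-- the partition function with loop weights `f` -/
noncomputable def LamW (f : Finset (Sym2 V) → ℝ) (x : ℝ) (D : Finset V) : ℝ :=
  ∑ S ∈ configs D, (∏ C ∈ S, f C) * x ^ (∑ C ∈ S, C.card)

/-- the loop through a vertex -/
theorem LamW_decomp (f : Finset (Sym2 V) → ℝ) (x : ℝ) (D : Finset V) {z : V} (hz : z ∈ D)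
    [DecidablePred (fun C : Finset (Sym2 V) => ∃ e ∈ C, z ∈ e)] :
    LamW f x D = LamW f x (D.erase z) +
      ∑ C ∈ (loopsIn D).filter (fun C => ∃ e ∈ C, z ∈ e),
        f C * x ^ C.card * LamW f x (avoid D C) := by
  classical
  unfold LamW
  rw [← Finset.sum_filter_not_add_sum_filter (configs D) (fun S => ∃ C ∈ S, ∃ e ∈ C, z ∈ e)]
  congr 1
  · refine Finset.sum_congr ?_ fun _ _ => rfl
    ext S
    rw [Finset.mem_filter, mem_configs, mem_configs]
    constructor
    · rintro ⟨⟨h1, h2⟩, h3⟩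
      refine ⟨fun C hC => ?_, h2⟩
      have h4 := mem_loopsIn.1 (h1 C hC)
      refine mem_loopsIn.2 ⟨fun e he v hv => ?_, h4.2⟩
      rw [Finset.mem_erase]
      refine ⟨?_, h4.1 e he v hv⟩
      rintro rfl
      exact h3 ⟨C, hC, e, he, hv⟩
    · rintro ⟨h1, h2⟩
      refine ⟨⟨fun C hC => ?_, h2⟩, ?_⟩
      · have h4 := mem_loopsIn.1 (h1 C hC)
        exact mem_loopsIn.2 ⟨fun e he v hv => Finset.mem_of_mem_erase (h4.1 e he v hv), h4.2⟩
      · rintro ⟨C, hC, e, he, hv⟩
        have h4 := mem_loopsIn.1 (h1 C hC)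
        exact Finset.notMem_erase z D (h4.1 e he z hv)
  · simp_rw [Finset.mul_sum]
    rw [Finset.sum_sigma']
    symm
    -- facts
    have key : ∀ (C : Finset (Sym2 V)) (S : Finset (Finset (Sym2 V))),
        S ∈ configs (avoid D C) → ∀ C' ∈ S, ∀ e' ∈ C', ∀ v ∈ e', ∀ e ∈ C, v ∉ e := by
      intro C S hS C' hC' e' he' v hv e he
      have h1 := mem_loopsIn.1 ((mem_configs.1 hS).1 C' hC')
      exact (mem_avoid.1 (h1.1 e' he' v hv)).2 e he
    have notin : ∀ (C : Finset (Sym2 V)) (S : Finset (Finset (Sym2 V))), IsLoop C →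
        S ∈ configs (avoid D C) → C ∉ S := by
      intro C S hC hS hc
      obtain ⟨e, he, v, hv⟩ := hC.nonempty
      exact key C S hS C hc e he v hv e he hv
    refine Finset.sum_bij (fun p _ => insert p.1 p.2) ?_ ?_ ?_ ?_
    · rintro ⟨C, S⟩ hp
      rw [Finset.mem_sigma, Finset.mem_filter] at hp
      obtain ⟨⟨hC, hz1⟩, hS⟩ := hp
      simp only at hS hC hz1 ⊢
      rw [Finset.mem_filter]
      refine ⟨mem_configs.2 ⟨?_, ?_⟩, C, Finset.mem_insert_self _ _, hz1⟩
      · intro C' hC'
        rcases Finset.mem_insert.1 hC' with rfl | hC'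
        · exact hC
        · have h1 := mem_loopsIn.1 ((mem_configs.1 hS).1 C' hC')
          exact mem_loopsIn.2 ⟨fun e he v hv => (mem_avoid.1 (h1.1 e he v hv)).1, h1.2⟩
      · intro C1 h1 C2 h2 e he e' he' v hv hv'
        rcases Finset.mem_insert.1 h1 with rfl | k1
        · rcases Finset.mem_insert.1 h2 with rfl | k2
          · rfl
          · exact absurd hv (key _ _ hS C2 k2 e' he' v hv' e he)
        · rcases Finset.mem_insert.1 h2 with rfl | k2
          · exact absurd hv' (key _ _ hS C1 k1 e he v hv e' he')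
          · exact (mem_configs.1 hS).2 C1 k1 C2 k2 e he e' he' v hv hv'
    · rintro ⟨C, S⟩ hp ⟨C', S'⟩ hp' h
      rw [Finset.mem_sigma, Finset.mem_filter] at hp hp'
      obtain ⟨⟨hC, hz1⟩, hS⟩ := hp
      obtain ⟨⟨hC', hz2⟩, hS'⟩ := hp'
      simp only at hS hC hz1 hS' hC' hz2 h
      obtain ⟨e, he, hv⟩ := hz1
      obtain ⟨e', he', hv'⟩ := hz2
      have h1 : C = C' := by
        have h2 : C ∈ insert C' S' := by
          rw [← h]
          exact Finset.mem_insert_self _ _
        rcases Finset.mem_insert.1 h2 with h2 | h2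
        · exact h2
        · exact absurd hv' (key _ _ hS' C h2 e he z hv e' he')
      subst h1
      have h3 : S = S' := by
        have n1 := notin C S (mem_loopsIn.1 hC).2 hS
        have n2 := notin C S' (mem_loopsIn.1 hC).2 hS'
        rw [← Finset.erase_insert n1, ← Finset.erase_insert n2, h]
      rw [h3]
    · intro S hS
      rw [Finset.mem_filter] at hS
      obtain ⟨hS, C, hC, e, he, hv⟩ := hS
      have hS' := mem_configs.1 hS
      refine ⟨⟨C, S.erase C⟩, ?_, ?_⟩
      · rw [Finset.mem_sigma, Finset.mem_filter]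
        refine ⟨⟨hS'.1 C hC, e, he, hv⟩, ?_⟩
        simp only
        refine mem_configs.2 ⟨?_, ?_⟩
        · intro C' hC'
          rw [Finset.mem_erase] at hC'
          have h1 := mem_loopsIn.1 (hS'.1 C' hC'.2)
          refine mem_loopsIn.2 ⟨fun e' he' v hv' => mem_avoid.2 ⟨h1.1 e' he' v hv', ?_⟩, h1.2⟩
          intro e2 he2 hv2
          exact hC'.1 (hS'.2 C' hC'.2 C hC e' he' e2 he2 v hv' hv2)
        · intro C1 h1 C2 h2
          exact hS'.2 C1 (Finset.mem_of_mem_erase h1) C2 (Finset.mem_of_mem_erase h2)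
      · exact Finset.insert_erase hC
    · rintro ⟨C, S⟩ hp
      rw [Finset.mem_sigma, Finset.mem_filter] at hp
      obtain ⟨⟨hC, hz1⟩, hS⟩ := hp
      simp only at hS hC hz1 ⊢
      have n1 := notin C S (mem_loopsIn.1 hC).2 hS
      rw [Finset.prod_insert n1, Finset.sum_insert n1, pow_add]
      ring

theorem empty_mem_configs (D : Finset V) : (∅ : Finset (Finset (Sym2 V))) ∈ configs D :=
  mem_configs.2 ⟨by simp, by simp⟩

theorem LamW_one_le {f : Finset (Sym2 V) → ℝ} {x : ℝ} (hf : ∀ C, 0 ≤ f C) (hx : 0 ≤ x)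
    (D : Finset V) : 1 ≤ LamW f x D := by
  classical
  unfold LamW
  have h2 : (1 : ℝ) = (∏ C ∈ (∅ : Finset (Finset (Sym2 V))), f C) *
      x ^ (∑ C ∈ (∅ : Finset (Finset (Sym2 V))), C.card) := by simp
  conv_lhs => rw [h2]
  refine Finset.single_le_sum (f := fun S => (∏ C ∈ S, f C) * x ^ (∑ C ∈ S, C.card))
    (fun S _ => ?_) (empty_mem_configs D)
  exact mul_nonneg (Finset.prod_nonneg fun C _ => hf C) (pow_nonneg hx _)

/-- if no loop has positive weight, the partition function is one -/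
theorem LamW_eq_one {f : Finset (Sym2 V) → ℝ} {x : ℝ} {D : Finset V}
    (h : ∀ C ∈ loopsIn D, f C = 0) : LamW f x D = 1 := by
  classical
  unfold LamW
  rw [Finset.sum_eq_single ∅]
  · simp
  · intro S hS hne
    obtain ⟨C, hC⟩ := Finset.nonempty_iff_ne_empty.2 hne
    have h1 := h C ((mem_configs.1 hS).1 C hC)
    rw [Finset.prod_eq_zero hC h1, zero_mul]
  · intro h
    exact absurd (empty_mem_configs D) h

/-- the partition functions agree if the weights agree -/
theorem LamW_congr {f g : Finset (Sym2 V) → ℝ} {x : ℝ} {D : Finset V}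
    (h : ∀ C ∈ loopsIn D, f C = g C) : LamW f x D = LamW g x D := by
  unfold LamW
  refine Finset.sum_congr rfl fun S hS => ?_
  rw [Finset.prod_congr rfl fun C hC => h C ((mem_configs.1 hS).1 C hC)]

end Pool.Agent.H99C
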