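import Pool.Agent.H99C.AA

set_option autoImplicit false

/-! Boundary start and bulk start: two inequalities for the walks which start at the origin. -/

namespace Pool.Agent.H99C

open H978R2.Hex Complex Pool.Agent.H99B

theorem good_split {D : Finset V} {z : V} {t : List V} (h : Good (· ∈ D) z t) :
    t = t.dropLast ++ [(0, 0)] := by
  have h1 := h.last
  rcases List.eq_nil_or_concat t with h2 | ⟨s, a, h2⟩
  · rw [h2] at h1
    simp at h1
  · rw [List.concat_eq_append] at h2
    rw [h2] at h1 ⊢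
    simp only [List.getLast?_append, List.getLast?_singleton, Option.some_or,
      Option.some.injEq] at h1
    rw [h1]
    simp

/-- walks which avoid `v` -/
theorem AA_erase {D : Finset V} (hO : (0, 0) ∉ D) {v : V} (hv : v ∈ D) :
    (AA (D.erase v)).filter (fun l => l.headD (0, 0) ≠ v) = (AA D).filter (fun l => v ∉ l) := by
  have hv0 : v ≠ (0, 0) := by
    rintro rfl
    exact hO hv
  ext l
  rw [Finset.mem_filter, Finset.mem_filter, mem_AA, mem_AA]
  constructor
  · rintro ⟨⟨z, t, rfl, hg, hz⟩, hzv⟩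
    simp only [List.headD_cons] at hzv
    have hvt : v ∉ t := by
      intro hm
      rw [good_split hg, List.mem_append, List.mem_singleton] at hm
      rcases hm with hm | hm
      · exact Finset.notMem_erase v D (hg.om v hm)
      · exact hv0 hm
    refine ⟨⟨z, t, rfl, ⟨hg.suff, hg.chain, hg.nodup, fun u hu => Finset.mem_of_mem_erase
      (hg.om u hu), hg.nb⟩, fun h => hz (Finset.mem_erase.2 ⟨hzv, h⟩)⟩, ?_⟩
    rw [List.mem_cons, not_or]
    exact ⟨Ne.symm hzv, hvt⟩
  · rintro ⟨⟨z, t, rfl, hg, hz⟩, hvl⟩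
    rw [List.mem_cons, not_or] at hvl
    refine ⟨⟨z, t, rfl, ⟨hg.suff, hg.chain, hg.nodup, fun u hu => Finset.mem_erase.2 ⟨?_,
      hg.om u hu⟩, hg.nb⟩, fun h => hz (Finset.mem_of_mem_erase h)⟩, ?_⟩
    · rintro rfl
      exact hvl.2 (List.dropLast_subset _ hu)
    · simpa using Ne.symm hvl.1

/-- **boundary start** -/
theorem org1 {x : ℝ} (hx0 : 0 ≤ x) (hx : x * (2 * Real.cos (Real.pi / 8)) = 1) {D : Finset V}
    (hN : NoHole D) (hO : (0, 0) ∉ D) {v : V} (hv : v ∈ D) :
    ∑ l ∈ (AA (D.erase v)).filter (fun l => l.headD (0, 0) = v), Fc (Real.pi / 8) x l ≤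
      ∑ l ∈ (AA D).filter (fun l => v ∈ l ∧ l.headD (0, 0) ≠ (0, 0)), Fc (Real.pi / 8) x l := by
  have h1 := sum_AA_one hx hN hO (Finset.Subset.refl D)
  have h2 := sum_AA_one hx hN hO (Finset.erase_subset v D)
  rw [← Finset.sum_filter_add_sum_filter_not (AA D) (fun l => v ∈ l)] at h1
  rw [← Finset.sum_filter_add_sum_filter_not (AA (D.erase v)) (fun l => l.headD (0, 0) = v)] at h2
  have h3 := AA_erase hO hv
  have h4 : ∑ l ∈ (AA (D.erase v)).filter (fun l => ¬ l.headD (0, 0) = v),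
      Fc (Real.pi / 8) x l = ∑ l ∈ (AA D).filter (fun l => ¬ v ∈ l), Fc (Real.pi / 8) x l :=
    congrArg (fun S => ∑ l ∈ S, Fc (Real.pi / 8) x l) h3
  rw [h4] at h2
  have h5 : ∑ l ∈ (AA D).filter (fun l => v ∈ l), Fc (Real.pi / 8) x l =
      ∑ l ∈ (AA D).filter (fun l => v ∈ l ∧ l.headD (0, 0) = (0, 0)), Fc (Real.pi / 8) x l +
      ∑ l ∈ (AA D).filter (fun l => v ∈ l ∧ l.headD (0, 0) ≠ (0, 0)), Fc (Real.pi / 8) x l := by
    rw [← Finset.sum_filter_add_sum_filter_not ((AA D).filter (fun l => v ∈ l))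
      (fun l => l.headD (0, 0) = (0, 0)), Finset.filter_filter, Finset.filter_filter]
  have h6 : ∑ l ∈ (AA D).filter (fun l => v ∈ l ∧ l.headD (0, 0) = (0, 0)),
      Fc (Real.pi / 8) x l ≤ 0 := by
    refine Finset.sum_nonpos fun l hl => ?_
    rw [Finset.mem_filter, mem_AA] at hl
    obtain ⟨⟨z, t, rfl, hg, -⟩, -, hz⟩ := hl
    simp only [List.headD_cons] at hz
    subst hz
    exact closing_nonpos hx0 hg
  linarith

/-- **bulk start** -/
theorem org2 {x : ℝ} (hx0 : 0 ≤ x) (hx : x * (2 * Real.cos (Real.pi / 8)) = 1) {D : Finset V}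
    (hN : NoHole D) :
    1 ≤ ∑ l ∈ (AA (D.erase (0, 0))).filter (fun l => l.headD (0, 0) ≠ (0, 0)),
      Fc (Real.pi / 8) x l := by
  have h := sum_AA (Real.pi / 8) x hx (Finset.notMem_erase (0, 0) D)
  have h1 := LamW_one_le (f := lw (Real.pi / 8)) lw8_nonneg hx0 (D.erase (0, 0))
  rw [← Finset.sum_filter_add_sum_filter_not (AA (D.erase (0, 0)))
    (fun l => l.headD (0, 0) = (0, 0))] at h
  have h2 : ∑ l ∈ (AA (D.erase (0, 0))).filter (fun l => l.headD (0, 0) = (0, 0)),
      Fc (Real.pi / 8) x l * LamW (lw (Real.pi / 8)) x (rest (D.erase (0, 0)) l.tail) ≤ 0 := by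
    refine Finset.sum_nonpos fun l hl => ?_
    rw [Finset.mem_filter, mem_AA] at hl
    obtain ⟨⟨z, t, rfl, hg, -⟩, hz⟩ := hl
    simp only [List.headD_cons] at hz
    subst hz
    refine mul_nonpos_of_nonpos_of_nonneg (closing_nonpos hx0 hg) ?_
    exact zero_le_one.trans (LamW_one_le (f := lw (Real.pi / 8)) lw8_nonneg hx0 _)
  have h3 : ∑ l ∈ (AA (D.erase (0, 0))).filter (fun l => ¬ l.headD (0, 0) = (0, 0)),
      Fc (Real.pi / 8) x l * LamW (lw (Real.pi / 8)) x (rest (D.erase (0, 0)) l.tail) =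
      ∑ l ∈ (AA (D.erase (0, 0))).filter (fun l => l.headD (0, 0) ≠ (0, 0)),
        Fc (Real.pi / 8) x l := by
    refine Finset.sum_congr rfl fun l hl => ?_
    rw [Finset.mem_filter, mem_AA] at hl
    obtain ⟨⟨z, t, rfl, hg, hzE⟩, hz⟩ := hl
    simp only [List.headD_cons] at hz
    have hzD : z ∉ D := fun h => hzE (Finset.mem_erase.2 ⟨hz, h⟩)
    rw [LamW_eq_one, mul_one]
    intro C hC
    refine lw8_zero ?_
    rintro ⟨v, k, hk, rfl, h0⟩
    have hv := verts_of_loopsIn hC
    simp only [List.tail_cons] at hv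
    apply h0
    have hp := cw_path hk t z hg.chain (by
      intro y hy hm
      have h4 := mem_rest.1 (hv y hm)
      rcases List.mem_cons.1 hy with rfl | hy
      · exact hzE h4.1
      · exact h4.2 hy)
    have h5 : (z :: t).getLast (by simp) = (0, 0) := by
      have := hg.last2
      rw [List.getLast?_eq_some_getLast (by simp)] at this
      simpa using this
    rw [h5] at hp
    rw [← hp]
    exact hN v k hk (fun y hy => Finset.mem_of_mem_erase (mem_rest.1 (hv y hy)).1) z hzD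
  rw [h3] at h
  linarith

end Pool.Agent.H99C
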