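import Pool.Agent.H99C.Org

set_option autoImplicit false

/-! The two inequalities for arbitrary starting edges. -/

namespace Pool.Agent.H99C

open H978R2.Hex Complex Pool.Agent.H99B

/-- self-avoiding walks which start with the edge from `b` to `a`, stay in `D` in between and stop
at `z` outside `D`; the list is reversed -/
structure IsP (D : Finset V) (b a z : V) (t : List V) : Prop where
  suff : [a, b] <:+ z :: t
  chain : (z :: t).IsChain (fun x y => Adj y x)
  nodup : (z :: t).Nodup
  om : ∀ v ∈ t.dropLast, v ∈ D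
  out : z ∉ D

theorem IsP.adj {D : Finset V} {b a z : V} {t : List V} (h : IsP D b a z t) : Adj b a := by
  obtain ⟨s, hs⟩ := h.suff
  have hc := h.chain
  rw [← hs] at hc
  have := hc.right_of_append
  rw [List.isChain_cons_cons] at this
  exact this.1

theorem mem_map_g {M : Mv} {l : List V} {v : V} : v ∈ l.map M.g ↔ M.f v ∈ l := by
  rw [List.mem_map]
  constructor
  · rintro ⟨u, hu, rfl⟩
    rw [M.fg]
    exact hu
  · intro h
    exact ⟨_, h, M.gf v⟩

theorem map_g_f (M : Mv) (l : List V) : (l.map M.f).map M.g = l := by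
  rw [List.map_map]
  have : M.g ∘ M.f = id := funext M.gf
  rw [this, List.map_id]

theorem map_f_g (M : Mv) (l : List V) : (l.map M.g).map M.f = l := by
  rw [List.map_map]
  have : M.f ∘ M.g = id := funext M.fg
  rw [this, List.map_id]

theorem mem_image_f {M : Mv} {D : Finset V} {v : V} : v ∈ D.image M.f ↔ M.g v ∈ D := by
  rw [Finset.mem_image]
  constructor
  · rintro ⟨u, hu, rfl⟩
    rw [M.gf]
    exact hu
  · intro h
    exact ⟨_, h, M.fg v⟩

theorem IsP.good {D : Finset V} {b a z : V} {t : List V} (h : IsP D b a z t) {M : Mv}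
    (hb : M.f b = (0, 0)) (ha : M.f a = (1, 0)) :
    Good (· ∈ D.image M.f) (M.f z) (t.map M.f) ∧ M.f z ∉ D.image M.f ∧ M.f z ≠ (0, 0) := by
  have hn := List.nodup_cons.1 h.nodup
  refine ⟨⟨?_, ?_, ?_, ?_, ?_⟩, ?_, ?_⟩
  · have := h.suff.map M.f
    simpa [hb, ha] using this
  · have e : M.f z :: t.map M.f = (z :: t).map M.f := rfl
    rw [e, List.isChain_map]
    exact h.chain.imp (fun a b hab => (M.adj b a).2 hab)
  · exact hn.2.map M.inj
  · intro v hv
    rw [← List.map_dropLast, List.mem_map] at hv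
    obtain ⟨u, hu, rfl⟩ := hv
    exact Finset.mem_image_of_mem _ (h.om u hu)
  · intro y x r h1
    have h2 : M.f z ∉ t.map M.f := by
      intro hm
      rw [List.mem_map] at hm
      obtain ⟨u, hu, h3⟩ := hm
      rw [M.inj h3] at hu
      exact hn.1 hu
    rw [h1] at h2
    rintro rfl
    exact h2 (by simp)
  · rw [mem_image_f, M.gf]
    exact h.out
  · intro h0
    rw [← hb] at h0
    have h1 := M.inj h0
    obtain ⟨s, hs⟩ := h.suff
    match s, hs with
    | [], hs =>
      simp only [List.nil_append, List.cons.injEq] at hs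
      obtain ⟨h2, h3⟩ := hs
      apply hn.1
      rw [← h3, h1]
      simp
    | u :: s, hs =>
      simp only [List.cons_append, List.cons.injEq] at hs
      obtain ⟨h2, h3⟩ := hs
      apply hn.1
      rw [← h3, h1]
      simp

theorem good_isP {D : Finset V} {b a z : V} {t : List V} {M : Mv}
    (hb : M.f b = (0, 0)) (ha : M.f a = (1, 0)) (h : Good (· ∈ D.image M.f) z t)
    (hz : z ∉ D.image M.f) (hz0 : z ≠ (0, 0)) : IsP D b a (M.g z) (t.map M.g) := by
  have hb' : M.g (0, 0) = b := by rw [← hb, M.gf]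
  have ha' : M.g (1, 0) = a := by rw [← ha, M.gf]
  have hzt : z ∉ t := by
    intro hm
    rw [good_split h, List.mem_append, List.mem_singleton] at hm
    rcases hm with hm | hm
    · exact hz (h.om z hm)
    · exact hz0 hm
  refine ⟨?_, ?_, ?_, ?_, ?_⟩
  · have := h.suff.map M.g
    simpa [hb', ha'] using this
  · have e : M.g z :: t.map M.g = (z :: t).map M.g := rfl
    rw [e, List.isChain_map]
    exact h.chain.imp (fun a b hab => (M.symm.adj b a).2 hab)
  · have e : M.g z :: t.map M.g = (z :: t).map M.g := rfl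
    rw [e]
    exact (List.nodup_cons.2 ⟨hzt, h.nodup⟩).map M.symm.inj
  · intro v hv
    rw [← List.map_dropLast, mem_map_g] at hv
    have := h.om _ hv
    rw [mem_image_f, M.gf] at this
    exact this
  · rw [← mem_image_f]
    exact hz

theorem fin_P (D : Finset V) (b a : V) : {l : List V | ∃ z t, l = z :: t ∧ IsP D b a z t}.Finite := by
  by_cases hab : Adj b a
  · obtain ⟨M, hb, ha⟩ := Mv.exists_mv hab
    refine (((AA (D.image M.f)).finite_toSet).image (List.map M.g)).subset ?_
    rintro l ⟨z, t, rfl, h⟩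
    obtain ⟨h1, h2, -⟩ := h.good hb ha
    refine ⟨(z :: t).map M.f, ?_, map_g_f M _⟩
    rw [Finset.mem_coe, mem_AA]
    exact ⟨M.f z, t.map M.f, rfl, h1, h2⟩
  · convert Set.finite_empty
    rw [Set.eq_empty_iff_forall_notMem]
    rintro l ⟨z, t, -, h⟩
    exact hab h.adj

/-- the finite set of these walks -/
noncomputable def PE (D : Finset V) (b a : V) : Finset (List V) := (fin_P D b a).toFinset

theorem mem_PE {D : Finset V} {b a : V} {l : List V} :
    l ∈ PE D b a ↔ ∃ z t, l = z :: t ∧ IsP D b a z t := by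
  unfold PE
  rw [Set.Finite.mem_toFinset]
  rfl

theorem Fc_map (c x : ℝ) (M : Mv) (l : List V) : Fc c x (l.map M.f) = Fc c x l := by
  unfold Fc
  rw [List.length_map, M.W_map]

/-- transport of the sums -/
theorem sum_PE (c x : ℝ) (D : Finset V) {b a : V} {M : Mv} (hb : M.f b = (0, 0))
    (ha : M.f a = (1, 0)) (p : List V → Prop) [DecidablePred p] :
    ∑ l ∈ (PE D b a).filter p, Fc c x l =
      ∑ l ∈ (AA (D.image M.f)).filter (fun l => l.headD (0, 0) ≠ (0, 0) ∧ p (l.map M.g)),
        Fc c x l := by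
  refine Finset.sum_nbij' (List.map M.f) (List.map M.g) ?_ ?_ ?_ ?_ ?_
  · intro l hl
    rw [Finset.mem_filter, mem_PE] at hl
    obtain ⟨⟨z, t, rfl, h⟩, hp⟩ := hl
    obtain ⟨h1, h2, h3⟩ := h.good hb ha
    rw [Finset.mem_filter, mem_AA, map_g_f]
    exact ⟨⟨M.f z, t.map M.f, rfl, h1, h2⟩, by simpa using h3, hp⟩
  · intro l hl
    rw [Finset.mem_filter, mem_AA] at hl
    obtain ⟨⟨z, t, rfl, h, hz⟩, hz0, hp⟩ := hl
    simp only [List.headD_cons] at hz0
    rw [Finset.mem_filter, mem_PE]
    exact ⟨⟨M.g z, t.map M.g, rfl, good_isP hb ha h hz hz0⟩, hp⟩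
  · intro l _
    exact map_g_f M l
  · intro l _
    exact map_f_g M l
  · intro l _
    exact (Fc_map c x M l).symm

theorem NoHole.image {D : Finset V} (hN : NoHole D) (M : Mv) : NoHole (D.image M.f) := by
  intro v l h hD z hz
  have h1 := hN (M.g v) (l.map M.g) (M.symm.circ_map h) (by
    intro y hy
    have : y ∈ (v :: l).map M.g := hy
    rw [mem_map_g] at this
    have := hD _ this
    rw [mem_image_f, M.gf] at this
    exact this) (M.g z) (fun h => hz (mem_image_f.2 h))
  have h2 := M.cw_map (M.g z) (M.g v :: l.map M.g)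
  rw [h1, M.fg] at h2
  have e : (M.g v :: l.map M.g).map M.f = v :: l := map_f_g M (v :: l)
  rw [e] at h2
  exact h2

/-- **boundary start** -/
theorem T1 {x : ℝ} (hx0 : 0 ≤ x) (hx : x * (2 * Real.cos (Real.pi / 8)) = 1) {D : Finset V}
    (hN : NoHole D) {b a v : V} (hab : Adj b a) (hb : b ∉ D) (hv : v ∈ D) :
    ∑ l ∈ (PE (D.erase v) b a).filter (fun l => l.headD (0, 0) = v), Fc (Real.pi / 8) x l ≤
      ∑ l ∈ (PE D b a).filter (fun l => v ∈ l), Fc (Real.pi / 8) x l := by
  obtain ⟨M, hb0, ha0⟩ := Mv.exists_mv hab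
  rw [sum_PE _ x (D.erase v) hb0 ha0, sum_PE _ x D hb0 ha0]
  have hb' : M.g (0, 0) = b := by rw [← hb0, M.gf]
  have hO : (0, 0) ∉ D.image M.f := by
    rw [mem_image_f, hb']
    exact hb
  have hv' : M.f v ∈ D.image M.f := Finset.mem_image_of_mem _ hv
  have h := org1 hx0 hx (hN.image M) hO hv'
  rw [Finset.image_erase M.inj]
  have hv0 : M.f v ≠ (0, 0) := by
    rintro h0
    rw [h0] at hv'
    exact hO hv'
  have e1 : (AA ((D.image M.f).erase (M.f v))).filter (fun l => l.headD (0, 0) = M.f v) =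
      (AA ((D.image M.f).erase (M.f v))).filter
        (fun l => l.headD (0, 0) ≠ (0, 0) ∧ (l.map M.g).headD (0, 0) = v) := by
    refine Finset.filter_congr fun l hl => ?_
    rw [mem_AA] at hl
    obtain ⟨z, t, rfl, -, -⟩ := hl
    simp only [List.headD_cons, List.map_cons]
    constructor
    · rintro rfl
      exact ⟨hv0, M.gf v⟩
    · rintro ⟨-, h2⟩
      rw [← h2, M.fg]
  have e2 : (AA (D.image M.f)).filter (fun l => M.f v ∈ l ∧ l.headD (0, 0) ≠ (0, 0)) =
      (AA (D.image M.f)).filter (fun l => l.headD (0, 0) ≠ (0, 0) ∧ v ∈ l.map M.g) := by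
    refine Finset.filter_congr fun l _ => ?_
    rw [mem_map_g, and_comm]
  rw [← e1, ← e2]
  exact h

/-- **bulk start** -/
theorem T2 {x : ℝ} (hx0 : 0 ≤ x) (hx : x * (2 * Real.cos (Real.pi / 8)) = 1) {D : Finset V}
    (hN : NoHole D) {a v : V} (hab : Adj v a) :
    1 ≤ ∑ l ∈ PE (D.erase v) v a, Fc (Real.pi / 8) x l := by
  obtain ⟨M, hb0, ha0⟩ := Mv.exists_mv hab
  have h0 : ∑ l ∈ PE (D.erase v) v a, Fc (Real.pi / 8) x l =
      ∑ l ∈ (PE (D.erase v) v a).filter (fun _ => True), Fc (Real.pi / 8) x l := by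
    rw [Finset.filter_true_of_mem (fun _ _ => trivial)]
  rw [h0, sum_PE _ x (D.erase v) hb0 ha0, Finset.image_erase M.inj, hb0]
  have h := org2 hx0 hx (hN.image M)
  have e : (AA ((D.image M.f).erase (0, 0))).filter
      (fun l => l.headD (0, 0) ≠ (0, 0) ∧ True) =
      (AA ((D.image M.f).erase (0, 0))).filter (fun l => l.headD (0, 0) ≠ (0, 0)) := by
    refine Finset.filter_congr fun l _ => ?_
    rw [and_true]
  rw [e]
  exact h

end Pool.Agent.H99C
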