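import Pool.Agent.H99C.Bulk

set_option autoImplicit false

/-! Triangles: symmetries, boundary edges, no holes. -/

namespace Pool.Agent.H99C

open H978R2.Hex Complex Pool.Agent.H99B

/-- triangles -/
def Tri (p q r : ℤ) (v : V) : Prop :=
  2 * p + 1 ≤ v.1 - v.2 ∧ q + 1 ≤ v.2 ∧ v.1 + v.2 ≤ -(2 * r) - 1

instance (p q r : ℤ) : DecidablePred (Tri p q r) := fun v => by unfold Tri; infer_instance

theorem tri_rot (p q r : ℤ) (v : V) : Tri r p q (Mv.rof v) ↔ Tri p q r v := by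
  unfold Tri Mv.rof
  simp only
  omega

open Mv in
theorem tri_tr (p q r a b : ℤ) (h : (a + b) % 2 = 0) (v : V) :
    Tri (p + (a - b) / 2) (q + b) (r - (a + b) / 2) ((tr a b h).f v) ↔ Tri p q r v := by
  unfold Tri tr
  simp only
  omega

/-- the boundary edges of a triangle can be moved to the edge at the origin -/
theorem bd_mv {p q r : ℤ} {b a : V} (hb : ¬ Tri p q r b) (ha : Tri p q r a) (h : Adj b a) :
    ∃ M : Mv, M.f b = (0, 0) ∧ M.f a = (1, 0) ∧ ∃ q' r' : ℤ,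
      ∀ k v, Tri (p + k) (q + k) (r + k) v ↔ Tri k (q' + k) (r' + k) (M.f v) := by
  rw [adj_iff] at h
  have hcase : (b.1 - b.2 = 2 * p ∧ a.1 = b.1 + 1 ∧ a.2 = b.2) ∨
      (b.2 = q ∧ a.1 = b.1 ∧ a.2 = b.2 + 1 ∧ (b.1 + b.2) % 2 = 0) ∨
      (b.1 + b.2 = -(2 * r) ∧ a.1 = b.1 - 1 ∧ a.2 = b.2) := by
    unfold Tri at hb ha
    omega
  have hev : (-b.1 + -b.2) % 2 = 0 := by omega
  rcases hcase with ⟨h1, h2, h3⟩ | ⟨h1, h2, h3, -⟩ | ⟨h1, h2, h3⟩
  · refine ⟨Mv.tr (-b.1) (-b.2) hev, by simp [Mv.tr], by simp [Mv.tr, h2, h3],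
      q - b.2, r + (b.1 + b.2) / 2, ?_⟩
    intro k v
    rw [← tri_tr (p + k) (q + k) (r + k) (-b.1) (-b.2) hev v]
    have e1 : p + k + (-b.1 - -b.2) / 2 = k := by omega
    have e2 : q + k + -b.2 = q - b.2 + k := by ring
    have e3 : r + k - (-b.1 + -b.2) / 2 = r + (b.1 + b.2) / 2 + k := by omega
    rw [e1, e2, e3]
  · refine ⟨Mv.rot.comp (Mv.rot.comp (Mv.tr (-b.1) (-b.2) hev)),
      by simp [Mv.tr, Mv.comp, Mv.rot, Mv.rof], by simp [Mv.tr, Mv.comp, Mv.rot, Mv.rof, h2, h3],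
      r + (b.1 + b.2) / 2, p - (b.1 - b.2) / 2, ?_⟩
    intro k v
    have e0 : (Mv.rot.comp (Mv.rot.comp (Mv.tr (-b.1) (-b.2) hev))).f v =
        Mv.rof (Mv.rof ((Mv.tr (-b.1) (-b.2) hev).f v)) := rfl
    rw [e0, tri_rot, tri_rot, ← tri_tr (p + k) (q + k) (r + k) (-b.1) (-b.2) hev v]
    have e1 : p + k + (-b.1 - -b.2) / 2 = p - (b.1 - b.2) / 2 + k := by omega
    have e2 : q + k + -b.2 = k := by omega
    have e3 : r + k - (-b.1 + -b.2) / 2 = r + (b.1 + b.2) / 2 + k := by omega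
    rw [e1, e2, e3]
  · refine ⟨Mv.rot.comp (Mv.tr (-b.1) (-b.2) hev),
      by simp [Mv.tr, Mv.comp, Mv.rot, Mv.rof], ?_, p - (b.1 - b.2) / 2, q - b.2, ?_⟩
    · simp [Mv.tr, Mv.comp, Mv.rot, Mv.rof, h2, h3]
      omega
    intro k v
    have e0 : (Mv.rot.comp (Mv.tr (-b.1) (-b.2) hev)).f v =
        Mv.rof ((Mv.tr (-b.1) (-b.2) hev).f v) := rfl
    rw [e0, tri_rot, ← tri_tr (p + k) (q + k) (r + k) (-b.1) (-b.2) hev v]
    have e1 : p + k + (-b.1 - -b.2) / 2 = p - (b.1 - b.2) / 2 + k := by omega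
    have e2 : q + k + -b.2 = q - b.2 + k := by omega
    have e3 : r + k - (-b.1 + -b.2) / 2 = k := by omega
    rw [e1, e2, e3]

theorem cw_below {z : V} {L : List V} (h : ∀ v ∈ L, ht z < ht v) : cw z L = 0 := by
  refine cw_half (u := -I) _ ?_
  intro p hp
  have hre : (-I * (pos p - pos z)).re = (pos p - pos z).im := by simp
  rw [hre, Complex.sub_im]
  have p1 : (pos p).im = (ht p : ℝ) / 2 := rfl
  have p2 : (pos z).im = (ht z : ℝ) / 2 := rfl
  rw [p1, p2]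
  have h8 : (ht z : ℝ) < (ht p : ℝ) := by exact_mod_cast h p hp
  linarith

theorem cw_rof (z : V) (L : List V) : cw z L = cw (Mv.rof z) (L.map Mv.rof) :=
  (Mv.rot.cw_map z L).symm

/-- triangles have no holes -/
theorem noHole_tri {p q r : ℤ} {D : Finset V} (hD : ∀ v, v ∈ D ↔ Tri p q r v) : NoHole D := by
  intro v l _ hv z hz
  rw [hD] at hz
  have hv' : ∀ y ∈ v :: l, Tri p q r y := fun y hy => (hD y).1 (hv y hy)
  by_cases h2 : q + 1 ≤ z.2
  · by_cases h1 : 2 * p + 1 ≤ z.1 - z.2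
    · -- third side
      rw [cw_rof, cw_rof]
      refine cw_below ?_
      intro y hy
      rw [List.mem_map] at hy
      obtain ⟨y1, hy1, rfl⟩ := hy
      rw [List.mem_map] at hy1
      obtain ⟨y2, hy2, rfl⟩ := hy1
      have h3 := hv' y2 hy2
      unfold Tri at h3 hz
      unfold Mv.rof ht
      simp only
      omega
    · rw [cw_rof]
      refine cw_below ?_
      intro y hy
      rw [List.mem_map] at hy
      obtain ⟨y2, hy2, rfl⟩ := hy
      have h3 := hv' y2 hy2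
      unfold Tri at h3
      unfold Mv.rof ht
      simp only
      omega
  · refine cw_below ?_
    intro y hy
    have h3 := hv' y hy
    unfold Tri at h3
    unfold ht
    omega

end Pool.Agent.H99C
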