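import Pool.Agent.H99B.Uniq

set_option autoImplicit false

/-! Closed circuits of the honeycomb lattice: total turning and winding around a point. -/

namespace Pool.Agent.H99C

open H978R2.Hex Complex Pool.Agent.H99B

/-- total turning of a cyclic list -/
def cT : List V → ℤ
  | a :: b :: t => W (a :: b :: (t ++ [a, b]))
  | _ => 0

/-- total winding of a cyclic list around `b` -/
noncomputable def cw (b : V) : List V → ℝ
  | a :: t => wind b (a :: (t ++ [a]))
  | [] => 0

theorem W_snoc (X : List V) (u v w : V) : W (X ++ [u, v, w]) = W (X ++ [u, v]) + turn w v u := by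
  induction X with
  | nil => simp [W]
  | cons x X ih =>
    match X, ih with
    | [], _ => simp only [List.cons_append, List.nil_append, W]; ring
    | [y], ih =>
      simp only [List.cons_append, List.nil_append, W] at ih ⊢
      ring
    | y :: z :: X, ih =>
      simp only [List.cons_append] at ih ⊢
      rw [W, ih, W]
      ring

theorem wind_split (b : V) (X : List V) (a : V) (Y : List V) :
    wind b (X ++ a :: Y) = wind b (X ++ [a]) + wind b (a :: Y) := by
  induction X with
  | nil => simp [wind]
  | cons u X ih =>
    match X, ih with
    | [], _ => simp [wind]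
    | v :: X, ih =>
      simp only [List.cons_append] at ih ⊢
      have e1 : wind b (u :: v :: (X ++ a :: Y)) = ang b u v + wind b (v :: (X ++ a :: Y)) := rfl
      have e2 : wind b (u :: v :: (X ++ [a])) = ang b u v + wind b (v :: (X ++ [a])) := rfl
      rw [e1, e2, ih]
      ring

theorem cT_step (a : V) {L : List V} (h : 2 ≤ L.length) : cT (a :: L) = cT (L ++ [a]) := by
  match L, h with
  | b :: c :: t, _ =>
    have e1 : cT (a :: b :: c :: t) = W (a :: b :: c :: (t ++ [a, b])) := rfl
    have e2 : cT ((b :: c :: t) ++ [a]) = W (b :: c :: ((t ++ [a]) ++ [b, c])) := rfl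
    have e3 : b :: c :: ((t ++ [a]) ++ [b, c]) = (b :: c :: t) ++ [a, b, c] := by simp
    have e4 : (b :: c :: t) ++ [a, b] = b :: c :: (t ++ [a, b]) := by simp
    rw [e1, e2, e3, W_snoc, e4, W]
    ring
  | [_], h => simp at h
  | [], h => simp at h

theorem cT_comm (X Y : List V) (h : 3 ≤ (X ++ Y).length) : cT (X ++ Y) = cT (Y ++ X) := by
  induction X generalizing Y with
  | nil => simp
  | cons a X ih =>
    rw [List.cons_append, cT_step a (by simp only [List.length_append, List.length_cons] at h ⊢; omega),
      List.append_assoc, ih]
    · simp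
    · simp only [List.length_append, List.length_cons, List.length_nil] at h ⊢
      omega

theorem cw_step (b a : V) (L : List V) : cw b (a :: L) = cw b (L ++ [a]) := by
  match L with
  | [] => rfl
  | c :: t =>
    have e1 : cw b (a :: c :: t) = ang b a c + wind b (c :: (t ++ [a])) := rfl
    have e2 : cw b ((c :: t) ++ [a]) = wind b (c :: ((t ++ [a]) ++ [c])) := rfl
    have e3 : c :: ((t ++ [a]) ++ [c]) = (c :: t) ++ a :: [c] := by simp
    have e4 : (c :: t) ++ [a] = c :: (t ++ [a]) := by simp
    rw [e1, e2, e3, wind_split, e4]
    simp only [wind]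
    ring

theorem cw_comm (b : V) (X Y : List V) : cw b (X ++ Y) = cw b (Y ++ X) := by
  induction X generalizing Y with
  | nil => simp
  | cons a X ih =>
    rw [List.cons_append, cw_step, List.append_assoc, ih]
    simp

theorem ang_neg {b p q : V} (h : Adj p q) (hp : p ≠ b) (hq : q ≠ b) :
    ang b q p = - ang b p q := by
  have h1 := abs_ang_lt h hp hq
  unfold ang at h1 ⊢
  have h2 := arg_inv_small h1
  rw [inv_div] at h2
  exact h2

theorem wind_reverse {b : V} (L : List V) (hc : L.IsChain Adj) (hb : b ∉ L) :
    wind b L.reverse = - wind b L := by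
  induction L with
  | nil => simp [wind]
  | cons a L ih =>
    match L, ih, hc, hb with
    | [], _, _, _ => simp [wind]
    | c :: t, ih, hc, hb =>
      have hc' := List.isChain_cons_cons.1 hc
      have h1 := ih hc'.2 (fun h => hb (List.mem_cons_of_mem _ h))
      have e1 : (a :: c :: t).reverse = t.reverse ++ c :: [a] := by simp
      have e2 : t.reverse ++ [c] = (c :: t).reverse := by simp
      have e3 : wind b (a :: c :: t) = ang b a c + wind b (c :: t) := rfl
      have e4 : wind b [c, a] = ang b c a := by simp [wind]
      have ha : a ≠ b := fun h => hb (by simp [h])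
      have hcb : c ≠ b := fun h => hb (by simp [h])
      rw [e1, wind_split, e2, h1, e3, e4, ang_neg hc'.1 ha hcb]
      ring

/-- circuits in a half-plane have winding zero around the points outside -/
theorem wind_half {b : V} {u : ℂ} (p : V) (L : List V)
    (h : ∀ v ∈ p :: L, 0 < (u * (pos v - pos b)).re) :
    wind b (p :: L) = arg (u * (pos p - pos b)) -
      arg (u * (pos ((p :: L).getLast (by simp)) - pos b)) := by
  induction L generalizing p with
  | nil => simp [wind]
  | cons q L ih =>
    have h1 := ih q (fun v hv => h v (List.mem_cons_of_mem _ hv))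
    have e1 : wind b (p :: q :: L) = ang b p q + wind b (q :: L) := rfl
    have e2 : (p :: q :: L).getLast (by simp) = (q :: L).getLast (by simp) :=
      List.getLast_cons (by simp)
    rw [e1, h1, e2]
    have hp := h p (by simp)
    have hq := h q (by simp)
    have hu : u ≠ 0 := by
      rintro rfl
      simp at hp
    have hp0 : pos p - pos b ≠ 0 := by
      intro e
      rw [e] at hp
      simp at hp
    have hq0 : pos q - pos b ≠ 0 := by
      intro e
      rw [e] at hq
      simp at hq
    have a1 := (Complex.abs_arg_lt_pi_div_two_iff (z := u * (pos p - pos b))).mpr (Or.inl hp)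
    have a2 := (Complex.abs_arg_lt_pi_div_two_iff (z := u * (pos q - pos b))).mpr (Or.inl hq)
    have key : ang b p q = arg (u * (pos p - pos b)) - arg (u * (pos q - pos b)) := by
      have e3 : (pos p - pos b) / (pos q - pos b) =
          (u * (pos p - pos b)) / (u * (pos q - pos b)) := by
        rw [mul_div_mul_left _ _ hu]
      unfold ang
      rw [e3]
      apply eq_of_angle
      · rw [Complex.arg_div_coe_angle (mul_ne_zero hu hp0) (mul_ne_zero hu hq0)]
        push_cast
        rfl
      · have a3 := Complex.abs_arg_le_pi ((u * (pos p - pos b)) / (u * (pos q - pos b)))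
        have hpi := Real.pi_pos
        rw [abs_lt] at a1 a2 ⊢
        rw [abs_le] at a3
        constructor <;> linarith [a1.1, a1.2, a2.1, a2.2, a3.1, a3.2]
    rw [key]
    ring

theorem cw_half {b : V} {u : ℂ} (L : List V) (h : ∀ v ∈ L, 0 < (u * (pos v - pos b)).re) :
    cw b L = 0 := by
  match L, h with
  | [], _ => rfl
  | a :: t, h =>
    have h1 := wind_half (b := b) (u := u) a (t ++ [a]) (by
      intro v hv
      apply h
      simp only [List.mem_cons, List.mem_append, List.not_mem_nil, or_false] at hv ⊢
      tauto)
    have e : (a :: (t ++ [a])).getLast (by simp) = a := by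
      have : ((a :: t) ++ [a]).getLast (by simp) = a := List.getLast_append_singleton (a :: t)
      exact this
    have e2 : cw b (a :: t) = wind b (a :: (t ++ [a])) := rfl
    rw [e2, h1, e, sub_self]

/-- moving the base point -/
theorem cw_base {b b' : V} (hb : Adj b b') {L : List V} (hl : 2 ≤ L.length)
    (hc : ∀ a t, L = a :: t → (a :: (t ++ [a])).IsChain Adj) (h1 : b ∉ L) (h2 : b' ∉ L) :
    cw b' L = cw b L := by
  match L, hl, hc, h1, h2 with
  | c :: e :: t, _, hc, h1, h2 =>
    rcases List.eq_nil_or_concat (e :: t) with h | ⟨K, a, h⟩
    · simp at h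
    · rw [List.concat_eq_append] at h
      have hch := hc c (e :: t) rfl
      -- use `loop_base_change` with last vertex `c`
      have e1 : ∀ b : V, cw b (c :: e :: t) = wind b (e :: (t ++ [c])) + ang b c e := by
        intro b
        have : cw b (c :: e :: t) = ang b c e + wind b (e :: (t ++ [c])) := rfl
        rw [this]; ring
      rw [e1, e1]
      have hch' : (e :: (t ++ [c])).IsChain (fun x y => Adj y x) := by
        have := (List.isChain_cons_cons.1 hch).2
        exact this.imp (fun a b hab => adj_symm' hab)
      have hce : Adj e c := adj_symm' (List.isChain_cons_cons.1 hch).1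
      refine loop_base_change hb e c t hch' hce ?_ ?_
      · intro hm
        apply h1
        simp only [List.mem_cons, List.mem_append, List.not_mem_nil, or_false] at hm ⊢
        tauto
      · intro hm
        apply h2
        simp only [List.mem_cons, List.mem_append, List.not_mem_nil, or_false] at hm ⊢
        tauto
  | [_], h, _, _, _ => simp at h
  | [], h, _, _, _ => simp at h

end Pool.Agent.H99C
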