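import Pool.Agent.H99C.Turn

set_option autoImplicit false

/-! The total turning of a circuit is `±6`; the winding around a neighbour and the trapped walks. -/

namespace Pool.Agent.H99C

open H978R2.Hex Complex Pool.Agent.H99B

/-- change of the base point of a circuit -/
theorem reroot' {v z : V} {l : List V} (h : Circ v l) (hz : z ∈ v :: l) :
    ∃ k, Circ z k ∧ edges (z :: (k ++ [z])) = edges (v :: (l ++ [v])) ∧
      (∀ y, y ∈ z :: k ↔ y ∈ v :: l) ∧ cT (z :: k) = cT (v :: l) ∧
      ∀ b, cw b (z :: k) = cw b (v :: l) := by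
  rcases List.mem_cons.1 hz with rfl | hz
  · exact ⟨l, h, rfl, fun _ => Iff.rfl, rfl, fun _ => rfl⟩
  · obtain ⟨A, B, rfl⟩ := List.append_of_mem hz
    have e1 : v :: ((A ++ z :: B) ++ [v]) = (v :: A) ++ z :: (B ++ [v]) := by simp
    have e2 : z :: ((B ++ v :: A) ++ [z]) = (z :: B) ++ v :: (A ++ [z]) := by simp
    have e3 : z :: (B ++ v :: A) = (z :: B) ++ (v :: A) := by simp
    have e4 : v :: (A ++ z :: B) = (v :: A) ++ (z :: B) := by simp
    have hp : (z :: (B ++ v :: A)).Perm (v :: (A ++ z :: B)) := by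
      rw [e3, e4]
      exact List.perm_append_comm
    refine ⟨B ++ v :: A, ⟨?_, ?_, ?_⟩, ?_, ?_, ?_, ?_⟩
    · have := h.len
      simp only [List.length_append, List.length_cons] at this ⊢
      omega
    · exact hp.nodup_iff.2 h.nodup
    · have hc := h.chain
      rw [e1, List.isChain_split] at hc
      rw [e2, List.isChain_split]
      exact ⟨hc.2, hc.1⟩
    · rw [e1, e2, edges_append, edges_append (v :: A)]
      have e3 : (z :: B) ++ [v] = z :: (B ++ [v]) := by simp
      have e4 : (v :: A) ++ [z] = v :: (A ++ [z]) := by simp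
      rw [e3, e4, Finset.union_comm]
    · exact fun y => hp.mem_iff
    · rw [e3, e4]
      refine cT_comm _ _ ?_
      have := h.len
      simp only [List.length_append, List.length_cons] at this ⊢
      omega
    · intro b
      rw [e3, e4, cw_comm]

/-- first and last vertex of a circuit -/
theorem circ_split {c : V} {k : List V} (h : Circ c k) :
    ∃ e M a, k = e :: (M ++ [a]) ∧ Adj c e ∧ Adj a c ∧ e ≠ a := by
  match k, h with
  | [], h => have := h.len; simp at this
  | e :: k', h =>
    rcases List.eq_nil_or_concat k' with h1 | ⟨M, a, h1⟩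
    · have := h.len
      rw [h1] at this
      simp at this
    · rw [List.concat_eq_append] at h1
      refine ⟨e, M, a, by rw [h1], ?_, ?_, ?_⟩
      · have := h.chain
        rw [List.cons_append, List.isChain_cons_cons] at this
        exact this.1
      · have hc := h.chain
        rw [h1] at hc
        have e1 : c :: (e :: (M ++ [a]) ++ [c]) = (c :: e :: M) ++ a :: [c] := by simp
        rw [e1, List.isChain_split] at hc
        exact (List.isChain_cons_cons.1 hc.2).1
      · rintro rfl
        have := h.nodup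
        rw [h1, List.nodup_cons, List.nodup_cons] at this
        apply this.2.1
        simp

/-- turning and winding around a neighbour of the base vertex -/
theorem turn_cw {q c e a : V} {M : List V} (h : Circ c (e :: (M ++ [a]))) (hq : Adj q c)
    (hqn : q ∉ c :: e :: (M ++ [a])) :
    (cT (c :: e :: (M ++ [a])) : ℝ) * (Real.pi / 3) =
      2 * cw q (c :: e :: (M ++ [a])) - 2 * Real.pi * (turn q c a : ℝ) := by
  have hch := h.chain
  have hn := h.nodup
  have hce : Adj c e := by
    have := hch
    rw [List.cons_append, List.isChain_cons_cons] at this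
    exact this.1
  have hac : Adj a c := by
    have hc := hch
    have e1 : c :: (e :: (M ++ [a]) ++ [c]) = (c :: e :: M) ++ a :: [c] := by simp
    rw [e1, List.isChain_split] at hc
    exact (List.isChain_cons_cons.1 hc.2).1
  have hea : e ≠ a := by
    rintro rfl
    rw [List.nodup_cons, List.nodup_cons] at hn
    apply hn.2.1
    simp
  have hqe : q ≠ e := by
    rintro rfl
    exact hqn (by simp)
  have hqa : q ≠ a := by
    rintro rfl
    exact hqn (by simp)
  have hch2 : (e :: (M ++ [a, c, q])).IsChain (fun x y => Adj y x) := by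
    have e1 : e :: (M ++ [a, c, q]) = (e :: (M ++ [a])) ++ c :: [q] := by simp
    rw [e1, List.isChain_split]
    constructor
    · have h2 := hch
      rw [List.cons_append, List.isChain_cons_cons] at h2
      exact h2.2.imp (fun a b hab => adj_symm' hab)
    · rw [List.isChain_cons_cons]
      exact ⟨hq, List.IsChain.singleton _⟩
  have hn2 : (e :: (M ++ [a, c, q])).Nodup := by
    have hp : (q :: c :: e :: (M ++ [a])).Perm (e :: (M ++ [a, c, q])) := by
      have e1 : e :: (M ++ [a, c, q]) = (e :: (M ++ [a])) ++ [c, q] := by simp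
      have e2 : q :: c :: e :: (M ++ [a]) = [q, c] ++ (e :: (M ++ [a])) := by simp
      rw [e1, e2]
      refine List.perm_append_comm.trans ?_
      exact (List.Perm.refl _).append (List.Perm.swap c q [])
    exact hp.nodup_iff.1 (List.nodup_cons.2 ⟨hqn, hn⟩)
  have hl := lasso q c a e M hch2 hn2 (adj_symm' hce)
  have e1 : cT (c :: e :: (M ++ [a])) = W ((c :: e :: M) ++ [a, c, e]) := by
    have : cT (c :: e :: (M ++ [a])) = W (c :: e :: ((M ++ [a]) ++ [c, e])) := rfl
    rw [this]
    congr 1
    simp
  have e2 : W (c :: e :: (M ++ [a, c, q])) = W ((c :: e :: M) ++ [a, c, q]) := by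
    congr 1
  have w1 := W_snoc (c :: e :: M) a c e
  have w2 := W_snoc (c :: e :: M) a c q
  rw [e2, w2] at hl
  rw [e1, w1]
  have ht : turn e c a = - turn q c a := by
    -- `turn a c e = - turn a c q`
    have t1 := turn_other (q := a) (c := c) (a := e) (b := q) hac hce (adj_symm' hq)
      (Ne.symm hea) (Ne.symm hqa) (Ne.symm hqe)
    have t2 := turn_rev (adj_symm' hce) (adj_symm' hac) hea
    have t3 := turn_rev hq (adj_symm' hac) hqa
    rw [t2, t3] at t1
    linarith
  rw [ht]
  have e3 : cw q (c :: e :: (M ++ [a])) = wind q (e :: (M ++ [a, c])) + ang q c e := by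
    have : cw q (c :: e :: (M ++ [a])) = ang q c e + wind q (e :: ((M ++ [a]) ++ [c])) := rfl
    rw [this]
    have e4 : (M ++ [a]) ++ [c] = M ++ [a, c] := by simp
    rw [e4]
    ring
  rw [e3]
  push_cast at hl ⊢
  linarith

/-- the total turning of a circuit -/
theorem cT_circ {v : V} {l : List V} (h : Circ v l) : cT (v :: l) = 6 ∨ cT (v :: l) = -6 := by
  -- a lowest odd vertex
  obtain ⟨w, hw, hmin⟩ := Finset.exists_min_image (v :: l).toFinset (fun p => p.2) ⟨v, by simp⟩
  rw [List.mem_toFinset] at hw
  have hmin' : ∀ p ∈ v :: l, w.2 ≤ p.2 := fun p hp => hmin p (List.mem_toFinset.2 hp)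
  obtain ⟨c, hc, hodd, hcl⟩ : ∃ c ∈ v :: l, (c.1 + c.2) % 2 = 1 ∧ c.2 = w.2 := by
    by_cases ho : (w.1 + w.2) % 2 = 1
    · exact ⟨w, hw, ho, rfl⟩
    · obtain ⟨k, hk, -, hmem, -, -⟩ := reroot' h hw
      obtain ⟨e, M, a, rfl, h1, h2, h3⟩ := circ_split hk
      have he : e ∈ v :: l := (hmem e).1 (by simp)
      have ha : a ∈ v :: l := (hmem a).1 (by simp)
      have me := hmin' e he
      have ma := hmin' a ha
      rw [adj_iff] at h1 h2
      have h4 : ¬ (e.1 = a.1 ∧ e.2 = a.2) := fun h => h3 (Prod.ext h.1 h.2)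
      by_cases h5 : e.2 = w.2
      · exact ⟨e, he, by omega, h5⟩
      · refine ⟨a, ha, ?_, ?_⟩
        · omega
        · omega
  obtain ⟨k, hk, -, hmem, hT, -⟩ := reroot' h hc
  obtain ⟨e, M, a, rfl, h1, h2, h3⟩ := circ_split hk
  rw [← hT]
  have hmin2 : ∀ p ∈ c :: e :: (M ++ [a]), c.2 ≤ p.2 := by
    intro p hp
    rw [hcl]
    exact hmin' p ((hmem p).1 hp)
  have hq : Adj (c.1, c.2 - 1) c := by
    rw [adj_iff]
    simp only
    omega
  have hqn : (c.1, c.2 - 1) ∉ c :: e :: (M ++ [a]) := by
    intro hm
    have := hmin2 _ hm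
    simp only at this
    omega
  have h5 := turn_cw hk hq hqn
  have h6 : cw (c.1, c.2 - 1) (c :: e :: (M ++ [a])) = 0 := by
    refine cw_half (u := -I) _ ?_
    intro p hp
    have hm := hmin2 p hp
    have hre : (-I * (pos p - pos (c.1, c.2 - 1))).re = (pos p - pos (c.1, c.2 - 1)).im := by
      simp
    rw [hre, Complex.sub_im]
    have p1 : (pos p).im = (ht p : ℝ) / 2 := rfl
    have p2 : (pos (c.1, c.2 - 1)).im = (ht (c.1, c.2 - 1) : ℝ) / 2 := rfl
    rw [p1, p2]
    have h7 : ht (c.1, c.2 - 1) < ht p := by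
      unfold ht
      simp only
      omega
    have h8 : (ht (c.1, c.2 - 1) : ℝ) < (ht p : ℝ) := by exact_mod_cast h7
    linarith
  rw [h6] at h5
  have hqa : (c.1, c.2 - 1) ≠ a := by
    rintro rfl
    exact hqn (by simp)
  have hpi := Real.pi_pos
  rcases turn_pm hq (adj_symm' h2) hqa with ht | ht
  · right
    rw [ht] at h5
    push_cast at h5
    have h6 : (cT (c :: e :: (M ++ [a])) : ℝ) = -6 := by
      have : (cT (c :: e :: (M ++ [a])) : ℝ) * (Real.pi / 3) = (-6) * (Real.pi / 3) := by
        rw [h5]; ring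
      exact mul_right_cancel₀ (by positivity) this
    exact_mod_cast h6
  · left
    rw [ht] at h5
    push_cast at h5
    have h6 : (cT (c :: e :: (M ++ [a])) : ℝ) = 6 := by
      have : (cT (c :: e :: (M ++ [a])) : ℝ) * (Real.pi / 3) = 6 * (Real.pi / 3) := by
        rw [h5]; ring
      exact mul_right_cancel₀ (by positivity) this
    exact_mod_cast h6

end Pool.Agent.H99C
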