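import Pool.Agent.H99C.Turn2

set_option autoImplicit false

/-! Circuits around the origin; trapped walks; closed walks. -/

namespace Pool.Agent.H99C

open H978R2.Hex Complex Pool.Agent.H99B

theorem cw_circ_base {b b' : V} (hb : Adj b b') {v : V} {l : List V} (h : Circ v l)
    (h1 : b ∉ v :: l) (h2 : b' ∉ v :: l) : cw b' (v :: l) = cw b (v :: l) := by
  refine cw_base hb ?_ ?_ h1 h2
  · have := h.len
    simp only [List.length_cons]
    omega
  · intro a t hat
    simp only [List.cons.injEq] at hat
    obtain ⟨rfl, rfl⟩ := hat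
    exact h.chain

/-- the winding is the same around all vertices of a path which avoids the circuit -/
theorem cw_path {v : V} {l : List V} (h : Circ v l) (B : List V) :
    ∀ q : V, (q :: B).IsChain (fun x y => Adj y x) → (∀ y ∈ q :: B, y ∉ v :: l) →
      cw q (v :: l) = cw ((q :: B).getLast (by simp)) (v :: l) := by
  induction B with
  | nil => intro q _ _; rfl
  | cons p B ih =>
    intro q hc hn
    rw [List.isChain_cons_cons] at hc
    have h1 := ih p hc.2 (fun y hy => hn y (List.mem_cons_of_mem _ hy))
    have e : (q :: p :: B).getLast (by simp) = (p :: B).getLast (by simp) :=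
      List.getLast_cons (by simp)
    rw [e, ← h1]
    exact cw_circ_base hc.1 h (hn p (by simp)) (hn q (by simp))

/-- the loops around the origin -/
def Sur (C : Finset (Sym2 V)) : Prop :=
  ∃ v l, Circ v l ∧ C = edges (v :: (l ++ [v])) ∧ cw (0, 0) (v :: l) ≠ 0

theorem circ_rev {v : V} {l : List V} (h : Circ v l) : Circ v l.reverse := by
  have h1 := List.nodup_cons.1 h.nodup
  refine ⟨by simpa using h.len, ?_, ?_⟩
  · rw [List.nodup_cons]
    exact ⟨by simpa using h1.1, List.nodup_reverse.2 h1.2⟩
  · have h2 : v :: (l.reverse ++ [v]) = (v :: (l ++ [v])).reverse := by simp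
    rw [h2, List.isChain_reverse]
    exact h.chain.imp (fun a b hab => adj_symm' hab)

theorem cw_rev {v b : V} {l : List V} (h : Circ v l) (hb : b ∉ v :: l) :
    cw b (v :: l.reverse) = - cw b (v :: l) := by
  have e1 : cw b (v :: l.reverse) = wind b (v :: (l.reverse ++ [v])) := rfl
  have e2 : cw b (v :: l) = wind b (v :: (l ++ [v])) := rfl
  have h2 : v :: (l.reverse ++ [v]) = (v :: (l ++ [v])).reverse := by simp
  rw [e1, e2, h2]
  refine wind_reverse _ h.chain ?_
  intro hm
  apply hb
  simp only [List.mem_cons, List.mem_append, List.not_mem_nil, or_false] at hm ⊢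
  tauto

theorem sur_iff {v : V} {l : List V} (h : Circ v l) (hb : (0, 0) ∉ v :: l) :
    Sur (edges (v :: (l ++ [v]))) ↔ cw (0, 0) (v :: l) ≠ 0 := by
  constructor
  · rintro ⟨v', l', h', he, hcw⟩
    have hv : v' ∈ v :: l := by
      obtain ⟨e, he1, hv1⟩ := exists_edge (L := v' :: (l' ++ [v'])) (by simp) (v := v') (by simp)
      rw [← he] at he1
      have := mem_of_edges he1 hv1
      simp only [List.mem_cons, List.mem_append, List.not_mem_nil, or_false] at this ⊢
      tauto
    obtain ⟨k, hk, hke, hmem, -, hkw⟩ := reroot' h hv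
    have hb' : (0, 0) ∉ v' :: k := fun hm => hb ((hmem _).1 hm)
    rcases uniq hk.len hk.nodup h'.len h'.nodup (by rw [hke, he]) with rfl | rfl
    · rw [hkw] at hcw
      exact hcw
    · rw [cw_rev hk hb', hkw] at hcw
      exact fun h0 => hcw (by rw [h0, neg_zero])
  · intro h0
    exact ⟨v, l, h, rfl, h0⟩

/-- the lasso in terms of the total turning of the circuit -/
theorem W_lasso {q c e a : V} {M : List V} (h : Circ c (e :: (M ++ [a]))) (hq : Adj q c)
    (hqn : q ∉ c :: e :: (M ++ [a])) :
    W (c :: e :: (M ++ [a, c, q])) = cT (c :: e :: (M ++ [a])) + 2 * turn q c a := by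
  have hch := h.chain
  have hn := h.nodup
  have hce : Adj c e := by
    have := hch
    rw [List.cons_append, List.isChain_cons_cons] at this
    exact this.1
  have hac : Adj a c := by
    have hc := hch
    have e1 : c :: (e :: (M ++ [a]) ++ [c]) = (c :: e :: M) ++ a :: [c] := by simp
    rw [e1, List.isChain_split] at hc
    exact (List.isChain_cons_cons.1 hc.2).1
  have hea : e ≠ a := by
    rintro rfl
    rw [List.nodup_cons, List.nodup_cons] at hn
    apply hn.2.1
    simp
  have hqe : q ≠ e := by
    rintro rfl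
    exact hqn (by simp)
  have hqa : q ≠ a := by
    rintro rfl
    exact hqn (by simp)
  have e1 : cT (c :: e :: (M ++ [a])) = W ((c :: e :: M) ++ [a, c, e]) := by
    have : cT (c :: e :: (M ++ [a])) = W (c :: e :: ((M ++ [a]) ++ [c, e])) := rfl
    rw [this]
    congr 1
    simp
  have e2 : W (c :: e :: (M ++ [a, c, q])) = W ((c :: e :: M) ++ [a, c, q]) := by
    congr 1
  rw [e1, e2, W_snoc, W_snoc]
  have ht : turn e c a = - turn q c a := by
    have t1 := turn_other (q := a) (c := c) (a := e) (b := q) hac hce (adj_symm' hq)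
      (Ne.symm hea) (Ne.symm hqa) (Ne.symm hqe)
    have t2 := turn_rev (adj_symm' hce) (adj_symm' hac) hea
    have t3 := turn_rev hq (adj_symm' hac) hqa
    rw [t2, t3] at t1
    linarith
  rw [ht]
  ring

/-- the total turning of a trapped walk which started at the origin -/
theorem W_trap' {z q e a : V} {M B : List V} (h : Circ z (e :: (M ++ [a])))
    (hc : (z :: q :: B).IsChain (fun x y => Adj y x))
    (hn : ∀ y ∈ q :: B, y ∉ z :: e :: (M ++ [a]))
    (hlast : (q :: B).getLast? = some (0, 0)) :
    W (z :: ((e :: (M ++ [a])) ++ z :: q :: B)) = W (z :: q :: B) +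
      (if cw (0, 0) (z :: e :: (M ++ [a])) = 0 then -4 else 8) * turn q z a := by
  have hc' := List.isChain_cons_cons.1 hc
  have hqn := hn q (by simp)
  have e1 : z :: ((e :: (M ++ [a])) ++ z :: q :: B) = (z :: e :: (M ++ [a])) ++ z :: q :: B := by
    simp
  have e2 : (z :: e :: (M ++ [a])) ++ [z, q] = z :: e :: (M ++ [a, z, q]) := by simp
  rw [e1, W_append, e2, W_lasso h hc'.1 hqn]
  have h1 := turn_cw h hc'.1 hqn
  have h2 := cw_path h B q hc'.2 hn
  have h3 : (q :: B).getLast (by simp) = (0, 0) := by
    rw [List.getLast?_eq_some_getLast (by simp)] at hlast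
    simpa using hlast
  rw [h3] at h2
  rw [h2] at h1
  have hqa : q ≠ a := by
    rintro rfl
    exact hqn (by simp)
  have haz : Adj a z := by
    have hc := h.chain
    have e1 : z :: (e :: (M ++ [a]) ++ [z]) = (z :: e :: M) ++ a :: [z] := by simp
    rw [e1, List.isChain_split] at hc
    exact (List.isChain_cons_cons.1 hc.2).1
  have hpi := Real.pi_pos
  have hT := cT_circ h
  have hs := turn_pm hc'.1 (adj_symm' haz) hqa
  have h4 : cT (z :: e :: (M ++ [a])) =
      (if cw (0, 0) (z :: e :: (M ++ [a])) = 0 then -6 else 6) * turn q z a := by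
    split_ifs with h0
    · rw [h0] at h1
      have h5 : (cT (z :: e :: (M ++ [a])) : ℝ) * (Real.pi / 3) =
          ((-6 * turn q z a : ℤ) : ℝ) * (Real.pi / 3) := by
        rw [h1]; push_cast; ring
      have h6 := mul_right_cancel₀ (by positivity) h5
      exact_mod_cast h6
    · have h5 : cT (z :: e :: (M ++ [a])) ≠ -6 * turn q z a := by
        intro h5
        apply h0
        rw [h5] at h1
        push_cast at h1
        linarith
      rcases hT with hT | hT <;> rcases hs with hs | hs <;> rw [hs] at h5 ⊢ <;> omega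
  rw [h4]
  split_ifs <;> ring

/-- the total turning of a walk which comes back to its start -/
theorem W_close {c y p : V} {t : List V} (h : Circ c (y :: (t ++ [p]))) :
    W (c :: y :: (t ++ [p, c])) = 5 ∨ W (c :: y :: (t ++ [p, c])) = 7 ∨
      W (c :: y :: (t ++ [p, c])) = -5 ∨ W (c :: y :: (t ++ [p, c])) = -7 := by
  have hT := cT_circ h
  have hch := h.chain
  have hn := h.nodup
  have hcy : Adj c y := by
    have := hch
    rw [List.cons_append, List.isChain_cons_cons] at this
    exact this.1
  have hpc : Adj p c := by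
    have hc := hch
    have e1 : c :: (y :: (t ++ [p]) ++ [c]) = (c :: y :: t) ++ p :: [c] := by simp
    rw [e1, List.isChain_split] at hc
    exact (List.isChain_cons_cons.1 hc.2).1
  have hyp : y ≠ p := by
    rintro rfl
    rw [List.nodup_cons, List.nodup_cons] at hn
    apply hn.2.1
    simp
  have e1 : cT (c :: y :: (t ++ [p])) = W ((c :: y :: t) ++ [p, c, y]) := by
    have : cT (c :: y :: (t ++ [p])) = W (c :: y :: ((t ++ [p]) ++ [c, y])) := rfl
    rw [this]
    congr 1
    simp
  have e2 : c :: y :: (t ++ [p, c]) = (c :: y :: t) ++ [p, c] := by simp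
  rw [e2]
  rw [e1, W_snoc] at hT
  rcases turn_pm (adj_symm' hcy) (adj_symm' hpc) hyp with hs | hs <;> rw [hs] at hT <;> omega

end Pool.Agent.H99C
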