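import Pool.Agent.H99C.Tri
import Pool.Agent.W832.HR.Fin
import Pool.Agent.Y153.GP.Eq

set_option autoImplicit false

/-! The walks which start at a boundary edge of a triangle and reach the middle triangle. -/

namespace Pool.Agent.H99C

open H978R2.Hex Pool.Agent.H99B
open Pool.Agent.W818.TD (wt wt_nonneg ms)
open Pool.Agent.W832.HR (Wall Up Lo Dm LW LK mq ma c3 c3_pos cos_ge Br LW_cls rg_Dm ma_finset
  ma_mono LK_sub idn)
open scoped ENNReal

theorem good_mono {Om Om' : V → Prop} (h : ∀ v, Om v → Om' v) {z : V} {t : List V}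
    (hg : H978R2.Hex.Good Om z t) : H978R2.Hex.Good Om' z t :=
  ⟨hg.suff, hg.chain, hg.nodup, fun v hv => h v (hg.om v hv), hg.nb⟩

theorem Fc_zero (x : ℝ) (l : List V) : Fc 0 x l = x ^ (l.length - 2) := by
  unfold Fc
  rw [mul_zero, Real.cos_zero, mul_one]

theorem hx8 : mu0⁻¹ * (2 * Real.cos (Real.pi / 8)) = 1 := by
  rw [← mu0_cos]
  exact inv_mul_cancel₀ mu0_pos.ne'

theorem sum_le_Br {k : ℕ} (hk : 1 ≤ k) (A : Finset (List V))
    (hA : ∀ l ∈ A, l ∈ LK (Dm k .no .no) 0) : ∑ l ∈ A, Fc 0 mu0⁻¹ l ≤ Br k := by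
  have h1 : ma (A : Set (List V)) ≤ ma (LK (Dm k .no .no) 0) := ma_mono hA
  rw [ma_finset] at h1
  have hL : ma (LK (Dm k .no .no) 0) ≠ ⊤ := (idn hk .no .no).ne_top LK_sub
  have h2 := (ENNReal.ofReal_le_iff_le_toReal hL).1 h1
  refine le_trans (le_of_eq ?_) h2
  unfold ms
  refine Finset.sum_congr rfl fun l _ => ?_
  rw [Fc_zero]
  rfl

theorem anch {D : Finset V} (hhp : ∀ v ∈ D, 1 ≤ v.1 - v.2) (hN : NoHole D)
    (hW : ∀ l ∈ AA D, -3 ≤ W l ∧ W l ≤ 3) {k : ℕ} (hk : 1 ≤ k) :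
    c3 * ∑ l ∈ (AA D).filter (fun l => ∃ v ∈ l, v ∈ D ∧ 2 * (k : ℤ) < v.1 - v.2),
      Fc 0 mu0⁻¹ l ≤ Br k := by
  have hO : (0, 0) ∉ D := by
    intro h
    have := hhp _ h
    simp at this
  set E := D.filter (fun v => v.1 - v.2 ≤ 2 * (k : ℤ)) with hE
  have hED : E ⊆ D := Finset.filter_subset _ _
  have h1 := sum_AA_one hx8 hN hO (Finset.Subset.refl D)
  have h2 := sum_AA_one hx8 hN hO hED
  rw [← Finset.sum_filter_add_sum_filter_not (AA D)
    (fun l => ∃ v ∈ l, v ∈ D ∧ 2 * (k : ℤ) < v.1 - v.2)] at h1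
  rw [← Finset.sum_filter_add_sum_filter_not (AA E) (fun l => l.headD (0, 0) ∈ D)] at h2
  have h3 : (AA E).filter (fun l => ¬ l.headD (0, 0) ∈ D) =
      (AA D).filter (fun l => ¬ ∃ v ∈ l, v ∈ D ∧ 2 * (k : ℤ) < v.1 - v.2) := by
    ext l
    rw [Finset.mem_filter, Finset.mem_filter, mem_AA, mem_AA]
    constructor
    · rintro ⟨⟨z, t, rfl, hg, hz⟩, hzD⟩
      simp only [List.headD_cons] at hzD
      refine ⟨⟨z, t, rfl, good_mono (fun v hv => hED hv) hg, hzD⟩, ?_⟩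
      rintro ⟨v, hv, hvD, hvk⟩
      rcases List.mem_cons.1 hv with rfl | hv
      · exact hzD hvD
      · rw [good_split hg, List.mem_append, List.mem_singleton] at hv
        rcases hv with hv | rfl
        · have := (Finset.mem_filter.1 (hg.om v hv)).2
          omega
        · exact hO hvD
    · rintro ⟨⟨z, t, rfl, hg, hz⟩, hn⟩
      refine ⟨⟨z, t, rfl, ⟨hg.suff, hg.chain, hg.nodup, ?_, hg.nb⟩, fun h => hz (hED h)⟩, hz⟩
      intro v hv
      rw [Finset.mem_filter]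
      refine ⟨hg.om v hv, ?_⟩
      by_contra hc
      exact hn ⟨v, List.mem_cons_of_mem _ (List.dropLast_subset _ hv), hg.om v hv, by omega⟩
  rw [h3] at h2
  have h4 : ∑ l ∈ (AA D).filter (fun l => ∃ v ∈ l, v ∈ D ∧ 2 * (k : ℤ) < v.1 - v.2),
      Fc (Real.pi / 8) mu0⁻¹ l =
      ∑ l ∈ (AA E).filter (fun l => l.headD (0, 0) ∈ D), Fc (Real.pi / 8) mu0⁻¹ l := by
    linarith
  have hmu : 0 ≤ mu0⁻¹ := by
    have := mu0_pos
    positivity
  have h5 : ∑ l ∈ (AA E).filter (fun l => l.headD (0, 0) ∈ D), Fc (Real.pi / 8) mu0⁻¹ l ≤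
      ∑ l ∈ (AA E).filter (fun l => l.headD (0, 0) ∈ D), Fc 0 mu0⁻¹ l := by
    refine Finset.sum_le_sum fun l _ => ?_
    rw [Fc_zero]
    unfold Fc
    exact mul_le_of_le_one_right (pow_nonneg hmu _) (Real.cos_le_one _)
  have h6 : ∑ l ∈ (AA E).filter (fun l => l.headD (0, 0) ∈ D), Fc 0 mu0⁻¹ l ≤ Br k := by
    refine sum_le_Br hk _ ?_
    intro l hl
    rw [Finset.mem_filter, mem_AA] at hl
    obtain ⟨⟨z, t, rfl, hg, hz⟩, hzD⟩ := hl
    simp only [List.headD_cons] at hzD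
    have hzk : 2 * (k : ℤ) < z.1 - z.2 := by
      by_contra hc
      exact hz (Finset.mem_filter.2 ⟨hzD, by omega⟩)
    have hLW : z :: t ∈ LW (Dm k .no .no) := by
      refine ⟨?_, ?_⟩
      · rw [val_iff]
        refine good_mono ?_ hg
        intro v hv
        have h7 := Finset.mem_filter.1 hv
        exact ⟨hhp v h7.1, h7.2, trivial, trivial⟩
      · simp only [List.headD_cons]
        intro h
        have := h.2.1
        omega
    refine ⟨hLW, ?_⟩
    have hz1 := hhp z hzD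
    have hc := LW_cls hk hLW
    simp only [List.headD_cons] at hc
    rcases hc with a | a | a | a | a
    · omega
    · omega
    · exact a.2
    · exact absurd trivial a.1
    · exact absurd trivial a.1
  have h7 : c3 * ∑ l ∈ (AA D).filter (fun l => ∃ v ∈ l, v ∈ D ∧ 2 * (k : ℤ) < v.1 - v.2),
      Fc 0 mu0⁻¹ l ≤
      ∑ l ∈ (AA D).filter (fun l => ∃ v ∈ l, v ∈ D ∧ 2 * (k : ℤ) < v.1 - v.2),
      Fc (Real.pi / 8) mu0⁻¹ l := by
    rw [Finset.mul_sum]
    refine Finset.sum_le_sum fun l hl => ?_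
    have h8 := hW l (Finset.mem_filter.1 hl).1
    rw [Fc_zero]
    unfold Fc
    rw [mul_comm]
    exact mul_le_mul_of_nonneg_left (cos_ge h8.1 h8.2) (pow_nonneg hmu _)
  linarith

/-- the winding of the walks in a triangle anchored at the origin -/
theorem tri_W {q r : ℤ} {D : Finset V} (hD : ∀ v, v ∈ D ↔ Tri 0 q r v) (h1 : (1, 0) ∈ D) :
    ∀ l ∈ AA D, -3 ≤ W l ∧ W l ≤ 3 := by
  intro l hl
  have hqr := (hD _).1 h1
  unfold Tri at hqr
  simp only at hqr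
  obtain ⟨n, hn⟩ : ∃ n : ℕ, (n : ℤ) = -r - 1 := ⟨(-r - 1).toNat, by omega⟩
  obtain ⟨m, hm⟩ : ∃ m : ℕ, (m : ℤ) = -q - 1 := ⟨(-q - 1).toNat, by omega⟩
  have hiff : ∀ v, v ∈ D ↔ Dm (n + m + 1) (.I n) (.I m) v := by
    intro v
    rw [hD]
    unfold Tri Dm Up Lo
    simp only
    push_cast
    omega
  refine rg_Dm (T := n + m + 1) (by omega) (.I n) (.I m) l ?_
  rw [mem_AA] at hl
  obtain ⟨z, t, rfl, hg, hz⟩ := hl
  refine ⟨?_, ?_⟩
  · rw [val_iff]
    exact good_mono (fun v hv => (hiff v).1 hv) hg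
  · simp only [List.headD_cons]
    intro h
    exact hz ((hiff z).2 h)

/-- **upper bound** for every boundary edge of a triangle -/
theorem upper {p q r : ℤ} {D : Finset V} (hD : ∀ v, v ∈ D ↔ Tri p q r v) {b a : V}
    (hb : b ∉ D) (ha : a ∈ D) (h : Adj b a) {k : ℕ} (hk : 1 ≤ k) :
    c3 * ∑ l ∈ (PE D b a).filter (fun l => ∃ v ∈ l, v ∈ D ∧ Tri (p + k) (q + k) (r + k) v),
      Fc 0 mu0⁻¹ l ≤ Br k := by
  classical
  obtain ⟨M, hb0, ha0, q', r', hM⟩ := bd_mv (fun hc => hb ((hD b).2 hc)) ((hD a).1 ha) h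
  have hD' : ∀ v, v ∈ D.image M.f ↔ Tri 0 q' r' v := by
    intro v
    rw [mem_image_f, hD]
    have := hM 0 (M.g v)
    rw [add_zero, add_zero, add_zero, add_zero, add_zero, M.fg] at this
    exact this
  have h1 : ((1, 0) : V) ∈ D.image M.f := by
    rw [← ha0]
    exact Finset.mem_image_of_mem _ ha
  have hanch := anch (D := D.image M.f) (k := k) (fun v hv => by
    have := (hD' v).1 hv
    unfold Tri at this
    omega) (noHole_tri hD') (tri_W hD' h1) hk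
  refine le_trans (mul_le_mul_of_nonneg_left ?_ c3_pos.le) hanch
  rw [sum_PE 0 mu0⁻¹ D hb0 ha0]
  have hmu : 0 ≤ mu0⁻¹ := by
    have := mu0_pos
    positivity
  refine Finset.sum_le_sum_of_subset_of_nonneg ?_ (fun l _ _ => by
    rw [Fc_zero]
    exact pow_nonneg hmu _)
  intro l hl
  rw [Finset.mem_filter] at hl ⊢
  obtain ⟨h2, -, v, hv, hvD, hvT⟩ := hl
  refine ⟨h2, M.f v, (mem_map_g).1 hv, Finset.mem_image_of_mem _ hvD, ?_⟩
  have := (hM k v).1 hvT
  unfold Tri at this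
  omega

end Pool.Agent.H99C
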